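import Pool.Agent.Helper40.CS.WeilMixed

/-!
# CS-10 Alg: potentials pass to algebraic extensions
-/

set_option autoImplicit false

open MvPolynomial

namespace Pool.Agent.Helper40.CS

universe u

theorem Pot.algebraic {K L : Type u} [Field K] [Field L] [Algebra K L] [Algebra.IsAlgebraic K L]
    {p : ℕ} {s t : ℝ} (h : Pot K p s t) : Pot L p s t := by
  classical
  intro n r d f hd hf hf0
  -- the finite extension generated by the coefficients
  set S : Finset L := Finset.univ.biUnion (fun j => (f j).coeffs) with hS
  set E : IntermediateField K L := IntermediateField.adjoin K (S : Set L) with hE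
  have hfin : FiniteDimensional K E :=
    IntermediateField.finiteDimensional_adjoin
      (fun x _ => (Algebra.IsAlgebraic.isAlgebraic x).isIntegral)
  have hr : ∀ j, ∃ g : MvPolynomial (Fin n) E, map (algebraMap E L) g = f j := by
    intro j
    have h1 : f j ∈ Set.range (map (σ := Fin n) (algebraMap E L)) := by
      rw [mem_range_map_iff_coeffs_subset]
      intro x hx
      have hxS : x ∈ S := Finset.mem_biUnion.2 ⟨j, Finset.mem_univ j, by exact_mod_cast hx⟩
      exact ⟨⟨x, IntermediateField.subset_adjoin K _ (by exact_mod_cast hxS)⟩, rfl⟩
    exact h1
  choose g hg using hr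
  have hinj : Function.Injective (algebraMap E L) := (algebraMap E L).injective
  refine (h.finite_ext (L := E)) n r d g hd (fun j => ?_) (fun x hx => ?_)
  · refine IsHomogeneous.of_map hinj ?_
    rw [hg j]
    exact hf j
  · have h2 := hf0 (fun l => algebraMap E L (x l)) (fun j => by
      rw [← hg j, eval_map]
      have h3 : eval₂ (algebraMap E L) (fun l => algebraMap E L (x l)) (g j)
          = algebraMap E L (eval x (g j)) := by
        rw [eval₂_comp (algebraMap E L) x (g j)]
        rfl
      rw [h3, hx j, map_zero])
    funext l
    have h4 := congrFun h2 l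
    exact hinj (by simpa using h4)

end Pool.Agent.Helper40.CS
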