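import Mathlib

/-!
# CS-7 Choose: an integer with prescribed proportions

Proof.  `k = card P ≥ 1`, `y p = x p + (1 - ∑ x)/k > x p`, `∑ y = 1`, `y p > 0`.  For `N : ℕ` large put `a p = ⌊N * y p / log p⌋₊` and `c = ∏ p ∈ P, p ^ a p`.
`a p log p ≤ N y p` (so `log c ≤ N`) and `a p log p > N y p - log p ≥ N x p` as soon as `N (y p - x p) ≥ log p`.
-/

set_option autoImplicit false

namespace Pool.Agent.Helper40.CS

theorem exists_int (P : Finset ℕ) (hP : ∀ p ∈ P, p.Prime) (hne : P.Nonempty) (x : ℕ → ℝ)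
    (hx0 : ∀ p ∈ P, 0 ≤ x p) (hx : ∑ p ∈ P, x p < 1) :
    ∃ c : ℕ, 2 ≤ c ∧ ∀ p ∈ P, p ∣ c ∧ x p * Real.log c < padicValNat p c * Real.log p := by
  classical
  set k : ℝ := (P.card : ℝ) with hk
  have hk0 : 0 < k := by rw [hk]; exact_mod_cast hne.card_pos
  set δ : ℝ := (1 - ∑ p ∈ P, x p) / k with hδ
  have hδ0 : 0 < δ := div_pos (by linarith) hk0
  set y : ℕ → ℝ := fun p => x p + δ with hy
  have hysum : ∑ p ∈ P, y p = 1 := by
    rw [hy, Finset.sum_add_distrib, Finset.sum_const, nsmul_eq_mul, ← hk, hδ]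
    field_simp
    ring
  have hlogp : ∀ p ∈ P, 0 < Real.log p := fun p hp =>
    Real.log_pos (by exact_mod_cast (hP p hp).one_lt)
  -- a large number
  obtain ⟨N, hN⟩ : ∃ N : ℕ, ∀ p ∈ P, Real.log p < N * δ := by
    obtain ⟨N, hN⟩ := exists_nat_gt (∑ p ∈ P, Real.log p / δ)
    refine ⟨N, fun p hp => ?_⟩
    have h1 : Real.log p / δ ≤ ∑ p ∈ P, Real.log p / δ :=
      Finset.single_le_sum (f := fun p : ℕ => Real.log p / δ)
        (fun q hq => (div_pos (hlogp q hq) hδ0).le) hp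
    have h2 : Real.log p / δ < N := lt_of_le_of_lt h1 hN
    rwa [div_lt_iff₀ hδ0] at h2
  set a : ℕ → ℕ := fun p => ⌊(N : ℝ) * y p / Real.log p⌋₊ with ha
  have hy0 : ∀ p ∈ P, 0 ≤ (N : ℝ) * y p / Real.log p := fun p hp => by
    have := hx0 p hp
    have h2 := hlogp p hp
    have h3 : 0 ≤ y p := by simp only [hy]; linarith
    positivity
  have ha1 : ∀ p ∈ P, (a p : ℝ) * Real.log p ≤ N * y p := fun p hp => by
    have h1 := Nat.floor_le (hy0 p hp)
    rwa [le_div_iff₀ (hlogp p hp)] at h1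
  have ha2 : ∀ p ∈ P, (N : ℝ) * x p < a p * Real.log p := fun p hp => by
    have h1 := Nat.lt_floor_add_one ((N : ℝ) * y p / Real.log p)
    rw [div_lt_iff₀ (hlogp p hp)] at h1
    have h2 := hN p hp
    have h3 : (N : ℝ) * y p = N * x p + N * δ := by simp only [hy]; ring
    have h4 : ((⌊(N : ℝ) * y p / Real.log p⌋₊ : ℝ) + 1) * Real.log p
        = (a p : ℝ) * Real.log p + Real.log p := by simp only [ha]; ring
    rw [h4] at h1
    linarith
  have ha3 : ∀ p ∈ P, 1 ≤ a p := fun p hp => by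
    have h1 := ha2 p hp
    have h2 : 0 ≤ (N : ℝ) * x p := mul_nonneg (Nat.cast_nonneg _) (hx0 p hp)
    by_contra h3
    have h4 : a p = 0 := by omega
    rw [h4, Nat.cast_zero, zero_mul] at h1
    linarith
  set c : ℕ := ∏ p ∈ P, p ^ a p with hc
  have hcpos : 0 < c := Finset.prod_pos (fun p hp => Nat.pow_pos (hP p hp).pos)
  have hdvd : ∀ p ∈ P, p ∣ c := fun p hp =>
    (dvd_pow_self p (by have := ha3 p hp; omega)).trans (Finset.dvd_prod_of_mem _ hp)
  have hlogc : Real.log c = ∑ p ∈ P, (a p : ℝ) * Real.log p := by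
    rw [hc]
    push_cast
    rw [Real.log_prod (fun p hp => by
      have : (0 : ℝ) < p := by exact_mod_cast (hP p hp).pos
      positivity)]
    exact Finset.sum_congr rfl (fun p _ => Real.log_pow _ _)
  have hlogcN : Real.log c ≤ N := by
    rw [hlogc]
    calc ∑ p ∈ P, (a p : ℝ) * Real.log p ≤ ∑ p ∈ P, N * y p := Finset.sum_le_sum ha1
      _ = N := by rw [← Finset.mul_sum, hysum, mul_one]
  have hval : ∀ p ∈ P, padicValNat p c = a p := fun p hp => by
    have : Fact p.Prime := ⟨hP p hp⟩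
    rw [← Nat.factorization_def c (hP p hp), hc,
      Nat.factorization_prod_apply (fun q hq => (Nat.pow_pos (hP q hq).pos).ne')]
    rw [Finset.sum_eq_single p]
    · rw [(hP p hp).factorization_pow, Finsupp.single_eq_same]
    · intro q hq hqp
      rw [(hP q hq).factorization_pow, Finsupp.single_eq_of_ne' hqp]
    · intro h; exact absurd hp h
  obtain ⟨p0, hp0⟩ := hne
  refine ⟨c, (hP p0 hp0).two_le.trans (Nat.le_of_dvd hcpos (hdvd p0 hp0)), fun p hp => ⟨hdvd p hp, ?_⟩⟩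
  rw [hval p hp]
  calc x p * Real.log c ≤ x p * N := mul_le_mul_of_nonneg_left hlogcN (hx0 p hp)
    _ = N * x p := mul_comm _ _
    _ < a p * Real.log p := ha2 p hp

end Pool.Agent.Helper40.CS
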