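import Pool.Agent.Helper40.CS.Defs

/-!
# CS-6 Closed: the supremum of the good slopes is attained

`good K p i x`: some potential `(s; p, t)` has `s + t x ≤ i`.
Proof of `good_sup`: take `x k ∈ S`, `x k → sSup S = y > 0` (`exists_seq_tendsto_sSup`), eventually `x k ≥ y/2`, potentials `(s k, t k)` with `0 ≤ s k ≤ i`, `0 ≤ t k ≤ i/(y/2)`;
`isCompact_Icc.prod` sequential compactness gives a limit `(s, t)`; `Pot` is closed in `(s, t)` (`ge_of_tendsto`, continuity of `fun s => a ^ s` for `a > 0`).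
-/

set_option autoImplicit false

open MvPolynomial

namespace Pool.Agent.Helper40.CS

universe u

theorem Pot.mono {K : Type u} [Field K] {p : ℕ} (hp : 1 ≤ p) {s t s' t' : ℝ} (h : Pot K p s t) (hs : s ≤ s')
    (ht : t ≤ t') : Pot K p s' t' := by
  intro n r d f hd hf h0
  refine (h n r d f hd hf h0).trans (Finset.sum_le_sum fun j _ => ?_)
  have h1 : (1 : ℝ) ≤ (d j : ℝ) := by exact_mod_cast hd j
  have h2 : (1 : ℝ) ≤ ((p : ℝ) ^ (padicValNat p (d j))) :=
    one_le_pow₀ (by exact_mod_cast hp)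
  exact mul_le_mul (Real.rpow_le_rpow_of_exponent_le h1 hs)
    (Real.rpow_le_rpow_of_exponent_le h2 ht) (Real.rpow_nonneg (by linarith) _)
    (Real.rpow_nonneg (by linarith) _)

theorem Pot.potInf {K : Type u} [Field K] {p : ℕ} {s t : ℝ} (h : Pot K p s t) : PotInf K p s := by
  intro n r d f hd hpd hf h0
  refine (h n r d f hd hf h0).trans (le_of_eq (Finset.sum_congr rfl fun j _ => ?_))
  rw [padicValNat.eq_zero_of_not_dvd (hpd j)]
  simp

/-- Limits of potentials are potentials. -/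
theorem Pot.lim {K : Type u} [Field K] {p : ℕ} (hp : 1 ≤ p) {s t : ℕ → ℝ} {s' t' : ℝ}
    (h : ∀ k, Pot K p (s k) (t k)) (hs : Filter.Tendsto s Filter.atTop (nhds s'))
    (ht : Filter.Tendsto t Filter.atTop (nhds t')) : Pot K p s' t' := by
  intro n r d f hd hf h0
  have hlim : Filter.Tendsto
      (fun k => ∑ j, (d j : ℝ) ^ (s k) * ((p : ℝ) ^ (padicValNat p (d j))) ^ (t k)) Filter.atTop
      (nhds (∑ j, (d j : ℝ) ^ s' * ((p : ℝ) ^ (padicValNat p (d j))) ^ t')) := by
    refine tendsto_finsetSum _ fun j _ => ?_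
    have h1 : (d j : ℝ) ≠ 0 := by exact_mod_cast (hd j).ne'
    have h2 : ((p : ℝ) ^ (padicValNat p (d j))) ≠ 0 := by
      have : (p : ℝ) ≠ 0 := by
        have : p ≠ 0 := by omega
        exact_mod_cast this
      exact pow_ne_zero _ this
    exact (tendsto_const_nhds.rpow hs (Or.inl h1)).mul (tendsto_const_nhds.rpow ht (Or.inl h2))
  exact ge_of_tendsto' hlim fun k => h k n r d f hd hf h0

/-- Some potential `(s; p, t)` of `K` has `s + t x ≤ i`. -/
def Good (K : Type u) [Field K] (i : ℕ) (p : ℕ) (x : ℝ) : Prop :=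
  ∃ s t : ℝ, 0 ≤ s ∧ 0 ≤ t ∧ Pot K p s t ∧ s + t * x ≤ i

theorem good_sup {K : Type u} [Field K] {i p : ℕ} (hp : 1 ≤ p) {S : Set ℝ} (hS : ∀ x ∈ S, Good K i p x)
    (hne : S.Nonempty) (hbdd : BddAbove S) (hpos : 0 < sSup S) : Good K i p (sSup S) := by
  obtain ⟨x, hmono, hx, hxS⟩ := exists_seq_tendsto_sSup hne hbdd
  have hev : ∀ᶠ k in Filter.atTop, sSup S / 2 < x k :=
    hx.eventually (lt_mem_nhds (by linarith))
  obtain ⟨N, hN⟩ := Filter.eventually_atTop.1 hev
  have hG : ∀ k, Good K i p (x (k + N)) := fun k => hS _ (hxS _)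
  choose s t hs ht hpot hle using hG
  have hx' : Filter.Tendsto (fun k => x (k + N)) Filter.atTop (nhds (sSup S)) :=
    (Filter.tendsto_add_atTop_iff_nat N).2 hx
  have hxk : ∀ k, sSup S / 2 < x (k + N) := fun k => hN _ (by omega)
  have hmem : ∀ k, (s k, t k) ∈ Set.Icc (0 : ℝ) i ×ˢ Set.Icc (0 : ℝ) (i / (sSup S / 2)) := by
    intro k
    have h1 : 0 ≤ t k * x (k + N) := mul_nonneg (ht k) (by linarith [hxk k])
    have h2 : t k * (sSup S / 2) ≤ t k * x (k + N) :=
      mul_le_mul_of_nonneg_left (hxk k).le (ht k)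
    have h3 := hle k
    have h4 := hs k
    refine ⟨⟨hs k, by linarith⟩, ⟨ht k, ?_⟩⟩
    rw [le_div_iff₀ (by linarith)]
    linarith
  obtain ⟨⟨s', t'⟩, ha, φ, hφ, hlim⟩ := (isCompact_Icc.prod isCompact_Icc).tendsto_subseq hmem
  have hls : Filter.Tendsto (fun k => s (φ k)) Filter.atTop (nhds s') :=
    (continuous_fst.tendsto (s', t')).comp hlim
  have hlt : Filter.Tendsto (fun k => t (φ k)) Filter.atTop (nhds t') :=
    (continuous_snd.tendsto (s', t')).comp hlim
  refine ⟨s', t', ha.1.1, ha.2.1, Pot.lim hp (fun k => hpot (φ k)) hls hlt, ?_⟩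
  have hlx : Filter.Tendsto (fun k => x (φ k + N)) Filter.atTop (nhds (sSup S)) :=
    hx'.comp hφ.tendsto_atTop
  exact le_of_tendsto' (hls.add (hlt.mul hlx)) fun k => hle (φ k)

end Pool.Agent.Helper40.CS
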