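import Mathlib

/-!
# CS-0 Defs: potentials of a field
-/

set_option autoImplicit false

open MvPolynomial

namespace Pool.Agent.Helper40.CS

universe u

/-- All systems of forms over `K` with only the trivial common zero satisfy
`n ≤ ∑ d_j ^ s * (p ^ v_p(d_j)) ^ t`. -/
def Pot (K : Type u) [Field K] (p : ℕ) (s t : ℝ) : Prop :=
  ∀ (n r : ℕ) (d : Fin r → ℕ) (f : Fin r → MvPolynomial (Fin n) K), (∀ j, 0 < d j) →
    (∀ j, (f j).IsHomogeneous (d j)) → (∀ x : Fin n → K, (∀ j, eval x (f j) = 0) → x = 0) →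
    (n : ℝ) ≤ ∑ j, (d j : ℝ) ^ s * ((p : ℝ) ^ (padicValNat p (d j))) ^ t

/-- All systems of forms of degrees prime to `p` over `K` with only the trivial common zero satisfy
`n ≤ ∑ d_j ^ s`. -/
def PotInf (K : Type u) [Field K] (p : ℕ) (s : ℝ) : Prop :=
  ∀ (n r : ℕ) (d : Fin r → ℕ) (f : Fin r → MvPolynomial (Fin n) K), (∀ j, 0 < d j) →
    (∀ j, ¬ p ∣ d j) → (∀ j, (f j).IsHomogeneous (d j)) →
    (∀ x : Fin n → K, (∀ j, eval x (f j) = 0) → x = 0) → (n : ℝ) ≤ ∑ j, (d j : ℝ) ^ s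

end Pool.Agent.Helper40.CS
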