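import Pool.Agent.Helper40.CS.Stage

/-!
# CS-3 Limit: multiplicative states

Proof.  For `ν : ℕ` take `X ν, G ν` from `stage h c ν` with `ε = 1/(ν+1)`.  Along the ultrafilter `Filter.hyperfilter ℕ` every `G ν m` (`m ≥ 1`, values in `[0,1]`)
has a limit `F m` (`isCompact_Icc.ultrafilter_le_nhds'` for the map; put `F 0 = 0`, say).  All properties are closed and hold for `ν` large:
* `F 1 = 1`, `F (a b) = F a F b`, `0 ≤ F ≤ 1`, `1 ≤ F c c^i`;
* `F (a+b) ≤ max (F a) (F b)`: `t = a + b`, `κ X = κ (X/t*a + X/t*b) ≤ max` (`h.add`), so `κ X G t ≤ e^ε κ X max (G a) (G b)`, divide by `κ X > 0` (`h.pos`);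
* systems: `d j * m' j = m`: `SysIneq` at `X` and `X/m * m' j`: `n κ X ≤ ∑ κ (X/m * m' j)`, times `G m`, `≤ e^ε κ X ∑ G (m' j)`, divide by `κ X`.
-/

set_option autoImplicit false

open Pool.Agent.Helper37.Ci

namespace Pool.Agent.Helper40.CS

open Filter Topology in
private theorem limit_exp_tendsto (U : Ultrafilter ℕ) (hU : (U : Filter ℕ) ≤ atTop) (s : ℝ) :
    Tendsto (fun ν : ℕ => Real.exp (s * (1 / ((ν : ℝ) + 1)))) U (𝓝 1) := by
  have h1 : Tendsto (fun ν : ℕ => s * (1 / ((ν : ℝ) + 1))) atTop (𝓝 (s * 0)) :=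
    tendsto_one_div_add_atTop_nhds_zero_nat.const_mul s
  have h2 := (Real.continuous_exp.tendsto _).comp h1
  rw [mul_zero, Real.exp_zero] at h2
  exact h2.mono_left hU

private theorem limit_div_pos {X t : ℕ} (hX : 1 ≤ X) (h : t ∣ X) : 1 ≤ X / t :=
  Nat.div_pos (Nat.le_of_dvd hX h) (Nat.pos_of_dvd_of_pos h hX)

open Filter Topology in
theorem exists_state {i : ℕ} {κ : ℕ → ℝ} (h : RegCost.Full i κ) {c : ℕ} (hc : 1 ≤ c) :
    ∃ F : ℕ → ℝ, RegCost F ∧ F 1 = 1 ∧ (∀ a b, 1 ≤ a → 1 ≤ b → F (a * b) = F a * F b) ∧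
      1 ≤ F c * (c : ℝ) ^ i ∧
      ∀ (r n : ℕ) (d : Fin r → ℕ), SysIneq n d κ → SysIneq n d F := by
  have hstage : ∀ ν : ℕ, ∃ (X : ℕ) (G : ℕ → ℝ), 1 ≤ X ∧ (∀ m, 1 ≤ m → 0 < G m ∧ G m ≤ 1) ∧ G 1 = 1 ∧
      (∀ a b, 1 ≤ a → 1 ≤ b → G (a * b) = G a * G b) ∧
      (∀ s t, 1 ≤ s → 1 ≤ t → s < ν → t < ν → t ∣ X ∧
        κ (X / t * s) * G t ≤ Real.exp (1 / ((ν : ℝ) + 1)) * κ X * G s) ∧
      (1 ≤ c → c < ν → Real.exp (-(1 / ((ν : ℝ) + 1))) ≤ G c * (c : ℝ) ^ i) :=
    fun ν => stage h c ν (by positivity)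
  choose X G hX hG hG1 hGm hst hcc using hstage
  set U : Ultrafilter ℕ := Filter.hyperfilter ℕ with hUdef
  have hU : (U : Filter ℕ) ≤ atTop := Nat.hyperfilter_le_atTop
  have hev : ∀ N : ℕ, ∀ᶠ ν in (U : Filter ℕ), N < ν := fun N => hU (eventually_gt_atTop N)
  have hlim : ∀ m : ℕ, ∃ x : ℝ, 1 ≤ m → Tendsto (fun ν => G ν m) U (𝓝 x) := by
    intro m
    by_cases hm : 1 ≤ m
    · have h1 : (U.map (fun ν => G ν m) : Filter ℝ) ≤ 𝓟 (Set.Icc (0 : ℝ) 1) := by
        rw [le_principal_iff, Ultrafilter.coe_map, Filter.mem_map]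
        exact Filter.mem_of_superset Filter.univ_mem
          fun ν _ => ⟨(hG ν m hm).1.le, (hG ν m hm).2⟩
      obtain ⟨x, -, hx⟩ := isCompact_Icc.ultrafilter_le_nhds _ h1
      exact ⟨x, fun _ => hx⟩
    · exact ⟨0, fun h => absurd h hm⟩
  choose F hF using hlim
  have he1 : Tendsto (fun ν : ℕ => Real.exp (1 / ((ν : ℝ) + 1))) U (𝓝 1) := by
    simpa using limit_exp_tendsto U hU 1
  have he2 : Tendsto (fun ν : ℕ => Real.exp (-(1 / ((ν : ℝ) + 1)))) U (𝓝 1) := by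
    simpa using limit_exp_tendsto U hU (-1)
  have hκX : ∀ ν, 0 < κ (X ν) := fun ν => h.pos (hX ν)
  refine ⟨F, ⟨?_, ?_, ?_, ?_⟩, ?_, ?_, ?_, ?_⟩
  · intro m hm
    exact ge_of_tendsto (hF m hm) (Eventually.of_forall fun ν => (hG ν m hm).1.le)
  · intro m hm
    exact le_of_tendsto (hF m hm) (Eventually.of_forall fun ν => (hG ν m hm).2)
  · intro a b ha hb
    have hab : 1 ≤ a * b := Nat.one_le_iff_ne_zero.mpr (Nat.mul_ne_zero (by omega) (by omega))
    refine le_of_tendsto_of_tendsto (hF _ hab) ((hF a ha).mul (hF b hb)) ?_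
    exact Eventually.of_forall fun ν => (hGm ν a b ha hb).le
  · intro a b C ha hb hFa hFb
    have hab : 1 ≤ a + b := by omega
    have hmax : Tendsto (fun ν : ℕ => Real.exp (1 / ((ν : ℝ) + 1)) * max (G ν a) (G ν b)) U
        (𝓝 (1 * max (F a) (F b))) := he1.mul ((hF a ha).max (hF b hb))
    have h1 : F (a + b) ≤ 1 * max (F a) (F b) := by
      refine le_of_tendsto_of_tendsto (hF _ hab) hmax ?_
      filter_upwards [hev (a + b)] with ν hν
      obtain ⟨hdvd, h2⟩ := hst ν a (a + b) ha hab (by omega) hν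
      obtain ⟨-, h3⟩ := hst ν b (a + b) hb hab (by omega) hν
      set Y := X ν / (a + b) with hY
      have hY1 : 1 ≤ Y := limit_div_pos (hX ν) hdvd
      have hYX : Y * a + Y * b = X ν := by
        rw [← mul_add]; exact Nat.div_mul_cancel hdvd
      have hYa : 1 ≤ Y * a := Nat.one_le_iff_ne_zero.mpr (Nat.mul_ne_zero (by omega) (by omega))
      have hYb : 1 ≤ Y * b := Nat.one_le_iff_ne_zero.mpr (Nat.mul_ne_zero (by omega) (by omega))
      have h4 := h.add (Y * a) (Y * b) (max (κ (Y * a)) (κ (Y * b))) hYa hYb (le_max_left _ _)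
        (le_max_right _ _)
      rw [hYX] at h4
      have hGab := (hG ν (a + b) hab).1
      have hee : 0 < Real.exp (1 / ((ν : ℝ) + 1)) := Real.exp_pos _
      have hk := hκX ν
      have h5 : κ (X ν) * G ν (a + b) ≤
          κ (X ν) * (Real.exp (1 / ((ν : ℝ) + 1)) * max (G ν a) (G ν b)) := by
        calc κ (X ν) * G ν (a + b) ≤ max (κ (Y * a)) (κ (Y * b)) * G ν (a + b) :=
              mul_le_mul_of_nonneg_right h4 hGab.le
          _ = max (κ (Y * a) * G ν (a + b)) (κ (Y * b) * G ν (a + b)) :=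
              max_mul_of_nonneg _ _ hGab.le
          _ ≤ max (Real.exp (1 / ((ν : ℝ) + 1)) * κ (X ν) * G ν a)
                (Real.exp (1 / ((ν : ℝ) + 1)) * κ (X ν) * G ν b) := max_le_max h2 h3
          _ = Real.exp (1 / ((ν : ℝ) + 1)) * κ (X ν) * max (G ν a) (G ν b) :=
              (mul_max_of_nonneg _ _ (mul_pos hee hk).le).symm
          _ = _ := by ring
      exact le_of_mul_le_mul_left h5 hk
    rw [one_mul] at h1
    exact h1.trans (max_le hFa hFb)
  · refine tendsto_nhds_unique (hF 1 le_rfl) ?_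
    refine tendsto_const_nhds.congr fun ν => (hG1 ν).symm
  · intro a b ha hb
    have hab : 1 ≤ a * b := Nat.one_le_iff_ne_zero.mpr (Nat.mul_ne_zero (by omega) (by omega))
    refine tendsto_nhds_unique (hF _ hab) ?_
    exact ((hF a ha).mul (hF b hb)).congr fun ν => (hGm ν a b ha hb).symm
  · refine le_of_tendsto_of_tendsto he2 ((hF c hc).mul_const ((c : ℝ) ^ i)) ?_
    filter_upwards [hev c] with ν hν
    exact hcc ν hc hν
  · intro r n d hsys m m' hm' hdm hm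
    have h1 : Tendsto (fun ν : ℕ => (n : ℝ) * G ν m) U (𝓝 ((n : ℝ) * F m)) :=
      (hF m hm).const_mul _
    have h2 : Tendsto (fun ν : ℕ => Real.exp (1 / ((ν : ℝ) + 1)) * ∑ j, G ν (m' j)) U
        (𝓝 (1 * ∑ j, F (m' j))) :=
      he1.mul (tendsto_finsetSum _ fun j _ => hF (m' j) (hm' j))
    rw [one_mul] at h2
    refine le_of_tendsto_of_tendsto h1 h2 ?_
    filter_upwards [hev (m + ∑ j, m' j)] with ν hν
    have hmν : m < ν := by omega
    have hm'ν : ∀ j, m' j < ν := fun j => by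
      have := Finset.single_le_sum (f := m') (fun _ _ => Nat.zero_le _) (Finset.mem_univ j)
      omega
    have hdvd : m ∣ X ν := (hst ν m m hm hm hmν hmν).1
    set Y := X ν / m with hY
    have hY1 : 1 ≤ Y := limit_div_pos (hX ν) hdvd
    have hYX : Y * m = X ν := Nat.div_mul_cancel hdvd
    have h3 := hsys (X ν) (fun j => Y * m' j)
      (fun j => Nat.one_le_iff_ne_zero.mpr
        (Nat.mul_ne_zero (by omega) (by have := hm' j; omega)))
      (fun j => by
        show d j * (Y * m' j) = X ν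
        rw [← hYX, ← hdm j]; ring) (hX ν)
    have hGm' := (hG ν m hm).1
    have hk := hκX ν
    have h4 : κ (X ν) * ((n : ℝ) * G ν m) ≤
        κ (X ν) * (Real.exp (1 / ((ν : ℝ) + 1)) * ∑ j, G ν (m' j)) := by
      calc κ (X ν) * ((n : ℝ) * G ν m) = (n : ℝ) * κ (X ν) * G ν m := by ring
        _ ≤ (∑ j, κ (Y * m' j)) * G ν m := mul_le_mul_of_nonneg_right h3 hGm'.le
        _ = ∑ j, κ (Y * m' j) * G ν m := Finset.sum_mul _ _ _
        _ ≤ ∑ j, Real.exp (1 / ((ν : ℝ) + 1)) * κ (X ν) * G ν (m' j) :=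
            Finset.sum_le_sum fun j _ => (hst ν (m' j) m (hm' j) hm (hm'ν j) hmν).2
        _ = Real.exp (1 / ((ν : ℝ) + 1)) * κ (X ν) * ∑ j, G ν (m' j) :=
            (Finset.mul_sum _ _ _).symm
        _ = _ := by ring
    exact le_of_mul_le_mul_left h4 hk

end Pool.Agent.Helper40.CS
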