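import Pool.Agent.Helper37.CiGeneral

/-!
# CS-4 Ostrowski: completely multiplicative functions with `F (a + b) ≤ max (F a) (F b)`

Proof.  `S = {θ ≥ 0 : ∀ l prime, F l * l ^ θ ≤ 1}` contains `0` and is bounded above: some prime `l ∣ c` has `F l > 0` (otherwise `F c = 0`), and `F l * l ^ θ → ∞`.
`s = sSup S ∈ S` (closed).  If two primes `p ≠ q` have `F p * p ^ s < 1`, `F q * q ^ s < 1` then for some `δ > 0`: `F p * p ^ (s + 2 δ) ≤ 1`, `F q * q ^ (s + δ) ≤ 1`, and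
`RegCost.low_lemma` (`Helper37/CiLocal.lean`, `e = p`, `u = q`, `θ = s + δ`, `τ = s + 2 δ`) gives `F m * m ^ (s + δ) ≤ C` for all `m`; with `m = l ^ k` and `F (l ^ k) = F l ^ k`:
`F l * l ^ (s + δ) ≤ 1`, contradiction to `s = sup`.  So `F l * l ^ s = 1` for all primes but at most one, `p` (any prime if there is none).
-/

set_option autoImplicit false

open Pool.Agent.Helper37.Ci

namespace Pool.Agent.Helper40.CS

private theorem pow_val {F : ℕ → ℝ} (h1 : F 1 = 1)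
    (hmul : ∀ a b, 1 ≤ a → 1 ≤ b → F (a * b) = F a * F b) {l : ℕ} (hl : 1 ≤ l) (k : ℕ) :
    F (l ^ k) = F l ^ k := by
  induction k with
  | zero => simpa using h1
  | succ k ih => rw [pow_succ, hmul _ _ (Nat.one_le_pow _ _ hl) hl, ih, pow_succ]

private theorem le_one_of_bdd {F : ℕ → ℝ} (h1 : F 1 = 1)
    (hmul : ∀ a b, 1 ≤ a → 1 ≤ b → F (a * b) = F a * F b) {θ C : ℝ}
    (hC : ∀ m : ℕ, 1 ≤ m → F m * (m : ℝ) ^ θ ≤ C) {l : ℕ} (hl : 1 ≤ l) :
    F l * (l : ℝ) ^ θ ≤ 1 := by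
  by_contra hcon
  have hcon' := not_le.mp hcon
  obtain ⟨k, hk⟩ := pow_unbounded_of_one_lt C hcon'
  have h2 := hC (l ^ k) (Nat.one_le_pow _ _ hl)
  rw [pow_val h1 hmul hl k] at h2
  have hl0 : (0 : ℝ) ≤ l := by positivity
  have h3 : ((l ^ k : ℕ) : ℝ) ^ θ = ((l : ℝ) ^ θ) ^ k := by
    push_cast
    rw [← Real.rpow_natCast, ← Real.rpow_natCast, ← Real.rpow_mul hl0, ← Real.rpow_mul hl0,
      mul_comm]
  rw [h3, ← mul_pow] at h2
  linarith

private theorem eq_rpow_neg {x s : ℝ} {l : ℕ} (hl : 1 ≤ l) (h : x * (l : ℝ) ^ s = 1) :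
    x = (l : ℝ) ^ (-s) := by
  have hl0 : (0 : ℝ) < l := by exact_mod_cast hl
  rw [Real.rpow_neg hl0.le]
  exact eq_inv_of_mul_eq_one_left h

private theorem le_rpow_neg {x s : ℝ} {l : ℕ} (hl : 1 ≤ l) (h : x * (l : ℝ) ^ s ≤ 1) :
    x ≤ (l : ℝ) ^ (-s) := by
  have hl0 : (0 : ℝ) < l := by exact_mod_cast hl
  rw [Real.rpow_neg hl0.le, ← one_div, le_div_iff₀ (Real.rpow_pos_of_pos hl0 s)]
  exact h

theorem ostrowski {F : ℕ → ℝ} (h : RegCost F) (h1 : F 1 = 1)
    (hmul : ∀ a b, 1 ≤ a → 1 ≤ b → F (a * b) = F a * F b) {c : ℕ} (hc : 2 ≤ c) (hFc : 0 < F c) :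
    ∃ (p : ℕ) (s : ℝ), p.Prime ∧ 0 ≤ s ∧ (∀ l : ℕ, l.Prime → l ≠ p → F l = (l : ℝ) ^ (-s)) ∧
      F p ≤ (p : ℝ) ^ (-s) := by
  set S : Set ℝ := {θ : ℝ | 0 ≤ θ ∧ ∀ l : ℕ, l.Prime → F l * (l : ℝ) ^ θ ≤ 1} with hS
  have hS0 : (0 : ℝ) ∈ S := ⟨le_rfl, fun l hl => by simpa using h.ub l hl.one_le⟩
  -- bounded above
  have hSb : BddAbove S := by
    have hlp : (Nat.minFac c).Prime := Nat.minFac_prime (by omega)
    set l := Nat.minFac c with hl
    obtain ⟨b, hb⟩ := Nat.minFac_dvd c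
    have hb1 : 1 ≤ b := by
      rcases Nat.eq_zero_or_pos b with hb0 | hb0
      · rw [hb0] at hb; omega
      · exact hb0
    have hFl : 0 < F l := by
      rw [hb, hmul _ _ hlp.one_le hb1] at hFc
      rcases (h.nonneg l hlp.one_le).eq_or_lt with h0 | h0
      · rw [← h0] at hFc; simp at hFc
      · exact h0
    have hlR : (1 : ℝ) < l := by exact_mod_cast hlp.one_lt
    have hlog : 0 < Real.log l := Real.log_pos hlR
    refine ⟨Real.log (1 / F l) / Real.log l, ?_⟩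
    rintro θ ⟨-, hθ⟩
    have h2 := hθ l hlp
    have hl0 : (0 : ℝ) < l := by linarith
    rw [le_div_iff₀ hlog]
    have h3 : (l : ℝ) ^ θ ≤ 1 / F l := by
      rw [le_div_iff₀ hFl]; linarith [mul_comm (F l) ((l : ℝ) ^ θ)]
    have h4 := Real.log_le_log (Real.rpow_pos_of_pos hl0 θ) h3
    rwa [Real.log_rpow hl0] at h4
  have hSc : IsClosed S := by
    have : S = {θ : ℝ | 0 ≤ θ} ∩ ⋂ l : ℕ, ⋂ (_ : l.Prime), {θ : ℝ | F l * (l : ℝ) ^ θ ≤ 1} := by
      ext θ; simp [hS]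
    rw [this]
    refine (isClosed_le continuous_const continuous_id).inter ?_
    refine isClosed_iInter fun l => isClosed_iInter fun hl => ?_
    have hl0 : ((l : ℝ)) ≠ 0 := by exact_mod_cast hl.ne_zero
    exact isClosed_le (continuous_const.mul (Real.continuous_const_rpow hl0)) continuous_const
  set s := sSup S with hs
  have hsS : s ∈ S := hSc.csSup_mem ⟨0, hS0⟩ hSb
  -- at most one bad prime
  have huniq : ∀ p q : ℕ, p.Prime → q.Prime → p ≠ q → F p * (p : ℝ) ^ s < 1 →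
      F q * (q : ℝ) ^ s < 1 → False := by
    intro p q hp hq hpq hFp hFq
    have hp0 : ((p : ℝ)) ≠ 0 := by exact_mod_cast hp.ne_zero
    have hq0 : ((q : ℝ)) ≠ 0 := by exact_mod_cast hq.ne_zero
    have hevp : ∀ᶠ δ : ℝ in nhdsWithin 0 (Set.Ioi 0), F p * (p : ℝ) ^ (s + 2 * δ) < 1 := by
      have hcont : Continuous (fun δ : ℝ => F p * (p : ℝ) ^ (s + 2 * δ)) :=
        continuous_const.mul ((Real.continuous_const_rpow hp0).comp
          (continuous_const.add (continuous_const.mul continuous_id)))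
      have ht := (hcont.tendsto 0).mono_left (nhdsWithin_le_nhds (s := Set.Ioi (0 : ℝ)))
      exact ht.eventually_lt_const (by simpa using hFp)
    have hevq : ∀ᶠ δ : ℝ in nhdsWithin 0 (Set.Ioi 0), F q * (q : ℝ) ^ (s + δ) < 1 := by
      have hcont : Continuous (fun δ : ℝ => F q * (q : ℝ) ^ (s + δ)) :=
        continuous_const.mul ((Real.continuous_const_rpow hq0).comp
          (continuous_const.add continuous_id))
      have ht := (hcont.tendsto 0).mono_left (nhdsWithin_le_nhds (s := Set.Ioi (0 : ℝ)))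
      exact ht.eventually_lt_const (by simpa using hFq)
    obtain ⟨δ, ⟨hδp, hδq⟩, hδ0⟩ := ((hevp.and hevq).and self_mem_nhdsWithin).exists
    have hδ0' : 0 < δ := hδ0
    have hs0 : 0 ≤ s := hsS.1
    obtain ⟨C, -, hC⟩ := h.low_lemma hp.two_le hq.two_le
      ((Nat.coprime_primes hq hp).mpr (Ne.symm hpq)) (θ := s + δ) (τ := s + 2 * δ)
      (by linarith) (by linarith) hδp.le hδq.le
    have hmem : s + δ ∈ S :=
      ⟨by linarith, fun l hl => le_one_of_bdd h1 hmul hC hl.one_le⟩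
    have := le_csSup hSb hmem
    linarith
  by_cases hbad : ∃ p : ℕ, p.Prime ∧ F p * (p : ℝ) ^ s < 1
  · obtain ⟨p, hp, hFp⟩ := hbad
    refine ⟨p, s, hp, hsS.1, fun l hl hlp => ?_, le_rpow_neg hp.one_le hFp.le⟩
    refine eq_rpow_neg hl.one_le ?_
    rcases (hsS.2 l hl).eq_or_lt with h2 | h2
    · exact h2
    · exact (huniq l p hl hp hlp h2 hFp).elim
  · push Not at hbad
    refine ⟨2, s, Nat.prime_two, hsS.1, fun l hl _ => ?_,
      le_rpow_neg (by norm_num) (hsS.2 2 Nat.prime_two)⟩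
    exact eq_rpow_neg hl.one_le (le_antisymm (hsS.2 l hl) (hbad l hl))

/-- The values of `F` at all integers. -/
theorem ostrowski_val {F : ℕ → ℝ} (h1 : F 1 = 1)
    (hmul : ∀ a b, 1 ≤ a → 1 ≤ b → F (a * b) = F a * F b) {p : ℕ} {s : ℝ} (hp : p.Prime)
    (hF : ∀ l : ℕ, l.Prime → l ≠ p → F l = (l : ℝ) ^ (-s)) {m : ℕ} (hm : 1 ≤ m) :
    F m = (m : ℝ) ^ (-s) * (F p * (p : ℝ) ^ s) ^ (padicValNat p m) := by
  have : Fact p.Prime := ⟨hp⟩
  revert hm
  induction m using Nat.recOnMul with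
  | zero => intro hm; omega
  | one => intro _; simp [h1]
  | prime l hl =>
    intro _
    by_cases hlp : l = p
    · subst hlp
      have hl0 : (0 : ℝ) < l := by exact_mod_cast hl.pos
      rw [padicValNat_self, pow_one, mul_comm (F l), ← mul_assoc, ← Real.rpow_add hl0]
      simp
    · rw [hF l hl hlp, padicValNat.eq_zero_of_not_dvd
        (fun hd => hlp ((Nat.prime_dvd_prime_iff_eq hp hl).mp hd).symm)]
      simp
  | mul a b iha ihb =>
    intro hm
    have ha : 1 ≤ a := by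
      rcases Nat.eq_zero_or_pos a with h0 | h0
      · rw [h0] at hm; simp at hm
      · exact h0
    have hb : 1 ≤ b := by
      rcases Nat.eq_zero_or_pos b with h0 | h0
      · rw [h0] at hm; simp at hm
      · exact h0
    rw [hmul a b ha hb, padicValNat.mul (by omega) (by omega), pow_add]
    push_cast
    rw [Real.mul_rpow (by positivity) (by positivity)]
    nth_rewrite 1 [iha ha]
    nth_rewrite 1 [ihb hb]
    ring

end Pool.Agent.Helper40.CS
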