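import Pool.Agent.Helper40.CS.Defs
import Pool.Agent.Helper40.CS.Limit
import Pool.Agent.Helper40.CS.Ostrowski

/-!
# CS-5 Direction: a potential in every direction `c`

Proof.  `κ = RawCost.reg (kap K)`, `RegCost.full_reg`-type facts: `full_reg hac hK : RegCost.Full i (RawCost.reg (kap K))`, `sysIneq_reg hac hK f hf hf0 hn1 : SysIneq n d κ`.
`exists_state` for `c` gives `F`, `ostrowski` gives `p, s`.  `0 < F c` since `1 ≤ F c * c ^ i`.  For an anisotropic system (`n ≥ 1`, the case `n = 0` is trivial) take `m = ∏ d j`,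
`m' j = m / d j`: `n F m ≤ ∑ F (m' j)`; if all `F (d j) ≠ 0` then `F m = F (d j) F (m' j)` and `n ≤ ∑ 1 / F (d j)`.
* degrees prime to `p`: `F (d j) = d j ^ (-s)` (`ostrowski_val`): `PotInf K p s`.
* `p ∣ c`: then `F p ≠ 0` (`F c = F p F (c/p)`), put `t = -log (F p * p ^ s) / log p ≥ 0`, `F m = m ^ (-s) * (p ^ v_p(m)) ^ (-t)`: `Pot K p s t`.
* `1 ≤ F c * c ^ i` and logarithms: `s log c + t v_p(c) log p ≤ i log c`; also `s ≤ i` (in the case `p ∤ c`: `1 ≤ c ^ (-s) c ^ i`).
-/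

set_option autoImplicit false

open MvPolynomial Pool.Agent.Helper37.Ci

namespace Pool.Agent.Helper40.CS

universe u

/-- The system inequality at the product of the degrees. -/
private theorem le_sum_inv {F : ℕ → ℝ} {n r : ℕ} {d : Fin r → ℕ}
    (hmul : ∀ a b, 1 ≤ a → 1 ≤ b → F (a * b) = F a * F b) (h1 : F 1 = 1)
    (hd : ∀ j, 0 < d j) (hFd : ∀ j, 0 < F (d j)) (hs : SysIneq n d F) :
    (n : ℝ) ≤ ∑ j, (F (d j))⁻¹ := by
  classical
  have hm : 1 ≤ ∏ j, d j ∧ 0 < F (∏ j, d j) := by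
    refine Finset.prod_induction d (fun m => 1 ≤ m ∧ 0 < F m) ?_ ?_ ?_
    · rintro a b ⟨ha, hFa⟩ ⟨hb, hFb⟩
      refine ⟨Nat.mul_pos ha hb, ?_⟩
      rw [hmul a b ha hb]
      exact mul_pos hFa hFb
    · exact ⟨le_rfl, by rw [h1]; exact one_pos⟩
    · intro j _
      exact ⟨hd j, hFd j⟩
  obtain ⟨hm1, hFm⟩ := hm
  have hprod : ∀ j, d j * ∏ k ∈ Finset.univ.erase j, d k = ∏ k, d k := fun j =>
    Finset.mul_prod_erase Finset.univ d (Finset.mem_univ j)
  have hpos : ∀ j, 1 ≤ ∏ k ∈ Finset.univ.erase j, d k := fun j =>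
    Finset.prod_pos (fun k _ => hd k)
  have key := hs (∏ j, d j) (fun j => ∏ k ∈ Finset.univ.erase j, d k) hpos hprod hm1
  have hval : ∀ j, F (∏ k ∈ Finset.univ.erase j, d k) = F (∏ k, d k) * (F (d j))⁻¹ := by
    intro j
    have h2 := hmul (d j) (∏ k ∈ Finset.univ.erase j, d k) (hd j) (hpos j)
    rw [hprod j] at h2
    rw [h2, mul_comm (F (d j)), mul_assoc, mul_inv_cancel₀ (hFd j).ne', mul_one]
  have h3 : (n : ℝ) * F (∏ j, d j) ≤ (∑ j, (F (d j))⁻¹) * F (∏ j, d j) := by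
    refine key.trans (le_of_eq ?_)
    rw [Finset.sum_mul]
    refine Finset.sum_congr rfl (fun j _ => ?_)
    rw [hval j, mul_comm]
  exact le_of_mul_le_mul_right h3 hFm

theorem exists_pot {K : Type u} [Field K] {i : ℕ} (hac : ¬ IsAlgClosed K) (hK : CiS K i) {c : ℕ}
    (hc : 2 ≤ c) :
    ∃ (p : ℕ) (s : ℝ), p.Prime ∧ 0 ≤ s ∧ s ≤ i ∧ PotInf K p s ∧
      (p ∣ c → ∃ t : ℝ, 0 ≤ t ∧ Pot K p s t ∧
        s * Real.log c + t * padicValNat p c * Real.log p ≤ i * Real.log c) := by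
  obtain ⟨F, hF, hF1, hFm, hFc, hFs⟩ := exists_state (full_reg hac hK) (c := c) (by omega)
  have hcR : (1 : ℝ) < c := by exact_mod_cast (by omega : 1 < c)
  have hc0 : (0 : ℝ) < c := by linarith
  have hlogc : 0 < Real.log c := Real.log_pos hcR
  have hci : (0 : ℝ) < (c : ℝ) ^ i := by positivity
  have hFc0 : 0 < F c := by
    by_contra hcon
    have h1 : F c * (c : ℝ) ^ i ≤ 0 := mul_nonpos_of_nonpos_of_nonneg (not_lt.mp hcon) hci.le
    linarith
  obtain ⟨p, s, hp, hs0, hFl, hFp⟩ := ostrowski hF hF1 hFm hc hFc0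
  have hpR : (1 : ℝ) < p := by exact_mod_cast hp.one_lt
  have hp0 : (0 : ℝ) < p := by linarith
  have hlogp : 0 < Real.log p := Real.log_pos hpR
  have hval : ∀ m, 1 ≤ m → F m = (m : ℝ) ^ (-s) * (F p * (p : ℝ) ^ s) ^ (padicValNat p m) :=
    fun m hm => ostrowski_val hF1 hFm hp hFl hm
  set ρ : ℝ := F p * (p : ℝ) ^ s with hρ
  have hρ0 : 0 ≤ ρ := mul_nonneg (hF.nonneg p hp.one_lt.le) (by positivity)
  have hρ1 : ρ ≤ 1 := by
    calc ρ ≤ (p : ℝ) ^ (-s) * (p : ℝ) ^ s := mul_le_mul_of_nonneg_right hFp (by positivity)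
      _ = 1 := by rw [← Real.rpow_add hp0, neg_add_cancel, Real.rpow_zero]
  -- logarithm of `F c`
  have hv := hval c (by omega)
  have hρv : 0 < ρ ^ (padicValNat p c) := by
    have h1 : 0 < (c : ℝ) ^ (-s) * ρ ^ (padicValNat p c) := by rw [← hv]; exact hFc0
    exact pos_of_mul_pos_right h1 (by positivity)
  have hlog : 0 ≤ -s * Real.log c + Real.log (ρ ^ (padicValNat p c)) + i * Real.log c := by
    have h1 : 0 ≤ Real.log (F c * (c : ℝ) ^ i) := Real.log_nonneg hFc
    have h2 : Real.log ((c : ℝ) ^ i) = i * Real.log c := by rw [Real.log_pow]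
    rw [hv, Real.log_mul (by positivity) hci.ne', Real.log_mul (by positivity) hρv.ne',
      Real.log_rpow hc0, h2] at h1
    exact h1
  have hlogρ : Real.log (ρ ^ (padicValNat p c)) ≤ 0 :=
    Real.log_nonpos hρv.le (pow_le_one₀ hρ0 hρ1)
  have hsi : s ≤ i := by
    by_contra hcon
    push Not at hcon
    have h1 : (i : ℝ) * Real.log c < s * Real.log c := mul_lt_mul_of_pos_right hcon hlogc
    linarith
  refine ⟨p, s, hp, hs0, hsi, ?_, ?_⟩
  · intro n r d f hd hpd hf hf0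
    rcases Nat.eq_zero_or_pos n with hn0 | hn1
    · rw [hn0, Nat.cast_zero]
      exact Finset.sum_nonneg (fun j _ => by positivity)
    have hFd : ∀ j, F (d j) = (d j : ℝ) ^ (-s) := by
      intro j
      rw [hval (d j) (hd j), padicValNat.eq_zero_of_not_dvd (hpd j), pow_zero, mul_one]
    have hd0 : ∀ j, (0 : ℝ) < d j := fun j => by exact_mod_cast hd j
    have h1 := le_sum_inv hFm hF1 hd (fun j => by
      rw [hFd j]; exact Real.rpow_pos_of_pos (hd0 j) _) (hFs r n d (sysIneq_reg hac hK f hf hf0 hn1))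
    refine h1.trans (le_of_eq (Finset.sum_congr rfl (fun j _ => ?_)))
    rw [hFd j, Real.rpow_neg (hd0 j).le, inv_inv]
  · intro hpc
    have hFp0 : 0 < F p := by
      obtain ⟨e, he⟩ := hpc
      have he1 : 1 ≤ e := by
        rcases Nat.eq_zero_or_pos e with h0 | h0
        · rw [h0, mul_zero] at he; omega
        · exact h0
      have h1 := hFm p e hp.one_lt.le he1
      rw [← he] at h1
      have h2 := hF.nonneg p hp.one_lt.le
      rcases h2.lt_or_eq with h3 | h3
      · exact h3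
      · rw [← h3, zero_mul] at h1
        linarith
    have hρpos : 0 < ρ := mul_pos hFp0 (by positivity)
    have hlogρ' : Real.log ρ ≤ 0 := Real.log_nonpos hρ0 hρ1
    refine ⟨-Real.log ρ / Real.log p, div_nonneg (by linarith) hlogp.le, ?_, ?_⟩
    · have hρt : (p : ℝ) ^ (-Real.log ρ / Real.log p) = ρ⁻¹ := by
        rw [Real.rpow_def_of_pos hp0, mul_div_cancel₀ _ hlogp.ne', Real.exp_neg,
          Real.exp_log hρpos]
      intro n r d f hd hf hf0
      rcases Nat.eq_zero_or_pos n with hn0 | hn1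
      · rw [hn0, Nat.cast_zero]
        exact Finset.sum_nonneg (fun j _ => by positivity)
      have hd0 : ∀ j, (0 : ℝ) < d j := fun j => by exact_mod_cast hd j
      have hFd : ∀ j, F (d j) = (d j : ℝ) ^ (-s) * ρ ^ (padicValNat p (d j)) :=
        fun j => hval (d j) (hd j)
      have h1 := le_sum_inv hFm hF1 hd (fun j => by
        rw [hFd j]
        exact mul_pos (Real.rpow_pos_of_pos (hd0 j) _) (pow_pos hρpos _))
        (hFs r n d (sysIneq_reg hac hK f hf hf0 hn1))
      refine h1.trans (le_of_eq (Finset.sum_congr rfl (fun j _ => ?_)))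
      rw [hFd j, Real.rpow_neg (hd0 j).le, mul_inv, inv_inv]
      congr 1
      rw [← Real.rpow_natCast (p : ℝ), ← Real.rpow_mul hp0.le, mul_comm (_ : ℝ) (-Real.log ρ / _),
        Real.rpow_mul hp0.le, hρt, Real.rpow_natCast, inv_pow]
    · have h1 : -Real.log ρ / Real.log p * padicValNat p c * Real.log p =
          -Real.log (ρ ^ (padicValNat p c)) := by
        rw [Real.log_pow]
        field_simp
      rw [h1]
      linarith

end Pool.Agent.Helper40.CS
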