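import Pool.Agent.Helper40.CS.Final
import Pool.Agent.Helper59.CI.Main

/-!
# CS-12 Extremal: extremal degrees of `C_i` fields which are not strongly `C_i`
-/

set_option autoImplicit false

open MvPolynomial Pool.Agent.Helper37.Ci

namespace Pool.Agent.Helper40.CS

universe u

/-- `∑_P v_p(d) log p ≤ log d`. -/
theorem sum_val_le {P : Finset ℕ} (hP : ∀ p ∈ P, p.Prime) (d : ℕ) :
    ∑ p ∈ P, (padicValNat p d : ℝ) * Real.log p ≤ Real.log d := by
  rw [Real.log_nat_eq_sum_factorization d, Finsupp.sum]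
  calc ∑ p ∈ P, (padicValNat p d : ℝ) * Real.log p
      = ∑ p ∈ P, (d.factorization p : ℝ) * Real.log p :=
        Finset.sum_congr rfl (fun p hp => by rw [Nat.factorization_def d (hP p hp)])
    _ ≤ ∑ p ∈ P ∪ d.factorization.support, (d.factorization p : ℝ) * Real.log p :=
        Finset.sum_le_sum_of_subset_of_nonneg Finset.subset_union_left (fun p hp _ => by
          have : 0 ≤ Real.log p := Real.log_natCast_nonneg p
          positivity)
    _ = ∑ p ∈ d.factorization.support, (d.factorization p : ℝ) * Real.log p := by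
        symm
        refine Finset.sum_subset Finset.subset_union_right (fun p _ hp => ?_)
        rw [Finsupp.notMem_support_iff] at hp
        rw [hp]
        simp

/-- The bound of a potential for `N` forms of degree `e ^ k`. -/
theorem Pot.equal_degrees {L : Type u} [Field L] {i p : ℕ} (hp : p.Prime) {s x : ℝ} (hx : 0 < x)
    (hpot : Pot L p s ((i - s) / x)) {e k N n : ℕ} (he : 1 < e)
    (g : Fin N → MvPolynomial (Fin n) L) (hg : ∀ j, (g j).IsHomogeneous (e ^ k))
    (hg0 : ∀ y : Fin n → L, (∀ j, eval y (g j) = 0) → y = 0) :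
    (n : ℝ) ≤ N * (e : ℝ) ^ (k * (s + (i - s) * (padicValNat p e * Real.log p / (x * Real.log e)))) := by
  have he0 : (0 : ℝ) < e := by exact_mod_cast (by omega : 0 < e)
  have hp0 : (0 : ℝ) < p := by exact_mod_cast hp.pos
  have hlog : 0 < Real.log e := Real.log_pos (by exact_mod_cast he)
  have h1 := hpot _ N (fun _ => e ^ k) g (fun _ => by positivity) hg hg0
  rw [Finset.sum_const, Finset.card_univ, Fintype.card_fin, nsmul_eq_mul] at h1
  refine h1.trans_eq ?_
  congr 1
  have : Fact p.Prime := ⟨hp⟩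
  rw [padicValNat.pow]
  push_cast
  rw [Real.rpow_def_of_pos (by positivity), Real.rpow_def_of_pos (by positivity),
    Real.rpow_def_of_pos he0, ← Real.exp_add, Real.log_pow, Real.log_pow]
  congr 1
  push_cast
  field_simp

/-- Asymptotically extremal numbers have the rigid direction: one inequality. -/
theorem extremal_le {K : Type u} [Field K] {i p : ℕ} (hp : p.Prime) {s x : ℝ} (hx : 0 < x) (hs : s < i)
    (hpot : Pot K p s ((i - s) / x)) {e : ℕ} (he : 1 < e)
    (H : ∀ ρ : ℝ, ρ < i → ∃ (L : Type u) (_ : Field L) (_ : Algebra K L) (k N n : ℕ),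
      Algebra.IsAlgebraic K L ∧ (N : ℝ) * (e : ℝ) ^ (k * ρ) < n ∧
      ∃ g : Fin N → MvPolynomial (Fin n) L, (∀ j, (g j).IsHomogeneous (e ^ k)) ∧
        ∀ y : Fin n → L, (∀ j, eval y (g j) = 0) → y = 0) :
    x * Real.log e ≤ padicValNat p e * Real.log p := by
  have hlog : 0 < Real.log e := Real.log_pos (by exact_mod_cast he)
  by_contra hcon
  push Not at hcon
  have h1 : (padicValNat p e * Real.log p / (x * Real.log e)) < 1 := by
    rw [div_lt_one (by positivity)]
    exact hcon
  obtain ⟨L, _, _, k, N, n, hL, hlt, g, hg, hg0⟩ :=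
    H (s + (i - s) * (padicValNat p e * Real.log p / (x * Real.log e))) (by nlinarith)
  have h2 := (hpot.algebraic (L := L)).equal_degrees hp hx he g hg hg0
  linarith

/-- The rigid direction. -/
theorem extremal_eq {K : Type u} [Field K] {i : ℕ} {P : Finset ℕ} {x s : ℕ → ℝ}
    (hP : ∀ p ∈ P, p.Prime ∧ 0 < x p ∧ 0 ≤ s p ∧ s p ≤ i) (hsum : ∑ p ∈ P, x p = 1)
    (hpot : ∀ p ∈ P, Pot K p (s p) ((i - s p) / x p)) (hs : ∀ p ∈ P, s p < i) {e : ℕ} (he : 1 < e)
    (H : ∀ ρ : ℝ, ρ < i → ∃ (L : Type u) (_ : Field L) (_ : Algebra K L) (k N n : ℕ),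
      Algebra.IsAlgebraic K L ∧ (N : ℝ) * (e : ℝ) ^ (k * ρ) < n ∧
      ∃ g : Fin N → MvPolynomial (Fin n) L, (∀ j, (g j).IsHomogeneous (e ^ k)) ∧
        ∀ y : Fin n → L, (∀ j, eval y (g j) = 0) → y = 0) :
    ∀ p ∈ P, x p * Real.log e = padicValNat p e * Real.log p := by
  have h1 : ∀ p ∈ P, x p * Real.log e ≤ padicValNat p e * Real.log p := fun p hp =>
    extremal_le (hP p hp).1 (hP p hp).2.1 (hs p hp) (hpot p hp) he H
  have h2 : ∑ p ∈ P, (padicValNat p e : ℝ) * Real.log p ≤ ∑ p ∈ P, x p * Real.log e := by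
    rw [← Finset.sum_mul, hsum, one_mul]
    exact sum_val_le (fun p hp => (hP p hp).1) e
  exact (Finset.sum_eq_sum_iff_of_le h1).1 (le_antisymm (Finset.sum_le_sum h1) h2)

end Pool.Agent.Helper40.CS
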