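import Pool.Agent.Helper40.CS.Main
import Pool.Agent.Helper40.CS.Alg

/-!
# CS-11 Final: translation into zeros
-/

set_option autoImplicit false

open MvPolynomial Pool.Agent.Helper37.Ci

namespace Pool.Agent.Helper40.CS

universe u

/-- The zero form of a potential. -/
theorem Pot.zeros {K : Type u} [Field K] {p : ℕ} {s t : ℝ} (h : Pot K p s t) {n r : ℕ} {d : Fin r → ℕ}
    (f : Fin r → MvPolynomial (Fin n) K) (hd : ∀ j, 0 < d j) (hf : ∀ j, (f j).IsHomogeneous (d j))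
    (hlt : ∑ j, (d j : ℝ) ^ s * ((p : ℝ) ^ (padicValNat p (d j))) ^ t < n) :
    ∃ x : Fin n → K, x ≠ 0 ∧ ∀ j, eval x (f j) = 0 := by
  by_contra hcon
  push Not at hcon
  have := h n r d f hd hf (fun x hx => by
    by_contra hx0
    obtain ⟨j, hj⟩ := hcon x hx0
    exact hj (hx j))
  linarith

/-- The converse. -/
theorem pot_of_zeros {K : Type u} [Field K] {p : ℕ} {s t : ℝ}
    (h : ∀ (n r : ℕ) (d : Fin r → ℕ) (f : Fin r → MvPolynomial (Fin n) K),
      (∀ j, 0 < d j) → (∀ j, (f j).IsHomogeneous (d j)) →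
      ∑ j, (d j : ℝ) ^ s * ((p : ℝ) ^ (padicValNat p (d j))) ^ t < n →
      ∃ x : Fin n → K, x ≠ 0 ∧ ∀ j, eval x (f j) = 0) : Pot K p s t := by
  intro n r d f hd hf hf0
  by_contra hcon
  push Not at hcon
  obtain ⟨x, hx, hx0⟩ := h n r d f hd hf hcon
  exact hx (hf0 x hx0)

theorem pow_val_le {p d : ℕ} (hp : p.Prime) (hd : 0 < d) : (p : ℝ) ^ (padicValNat p d) ≤ d := by
  exact_mod_cast Nat.le_of_dvd hd pow_padicValNat_dvd

theorem one_le_pow_val {p : ℕ} (hp : p.Prime) (k : ℕ) : (1 : ℝ) ≤ (p : ℝ) ^ k :=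
  one_le_pow₀ (by exact_mod_cast hp.one_lt.le)

/-- A potential bounds systems by a power of the degrees. -/
theorem Pot.term_le {p : ℕ} (hp : p.Prime) {s t : ℝ} (ht : 0 ≤ t) {k : ℕ} (hk : s + t ≤ k) {d : ℕ}
    (hd : 0 < d) : (d : ℝ) ^ s * ((p : ℝ) ^ (padicValNat p d)) ^ t ≤ (d : ℝ) ^ k := by
  have hd1 : (1 : ℝ) ≤ d := by exact_mod_cast hd
  have hd0 : (0 : ℝ) < d := by linarith
  calc (d : ℝ) ^ s * ((p : ℝ) ^ (padicValNat p d)) ^ t ≤ (d : ℝ) ^ s * (d : ℝ) ^ t := by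
        refine mul_le_mul_of_nonneg_left ?_ (by positivity)
        exact Real.rpow_le_rpow (by positivity) (pow_val_le hp hd) ht
    _ = (d : ℝ) ^ (s + t) := (Real.rpow_add hd0 _ _).symm
    _ ≤ (d : ℝ) ^ (k : ℝ) := Real.rpow_le_rpow_of_exponent_le hd1 hk
    _ = (d : ℝ) ^ k := Real.rpow_natCast _ _

/-- Strong property from a potential. -/
theorem Pot.strong {K : Type u} [Field K] {p : ℕ} (hp : p.Prime) {s t : ℝ} (ht : 0 ≤ t) {k : ℕ}
    (hk : s + t ≤ k) (h : Pot K p s t) :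
    ∀ (n r : ℕ) (d : Fin r → ℕ) (f : Fin r → MvPolynomial (Fin n) K),
      (∀ j, 0 < d j) → (∀ j, (f j).IsHomogeneous (d j)) → (∑ j, d j ^ k) < n →
      ∃ x : Fin n → K, x ≠ 0 ∧ ∀ j, eval x (f j) = 0 := by
  intro n r d f hd hf hlt
  refine h.zeros f hd hf (lt_of_le_of_lt (Finset.sum_le_sum (fun j _ => Pot.term_le hp ht hk (hd j))) ?_)
  exact_mod_cast hlt

/-- A potential from the strong property. -/
theorem pot_of_strong {K : Type u} [Field K] {i : ℕ}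
    (h : ∀ (n r : ℕ) (d : Fin r → ℕ) (f : Fin r → MvPolynomial (Fin n) K),
      (∀ j, 0 < d j) → (∀ j, (f j).IsHomogeneous (d j)) → (∑ j, d j ^ i) < n →
      ∃ x : Fin n → K, x ≠ 0 ∧ ∀ j, eval x (f j) = 0) (p : ℕ) : Pot K p i 0 := by
  refine pot_of_zeros (fun n r d f hd hf hlt => h n r d f hd hf ?_)
  have h1 : (∑ j, (d j : ℝ) ^ (i : ℝ) * ((p : ℝ) ^ (padicValNat p (d j))) ^ (0 : ℝ))
      = ((∑ j, d j ^ i : ℕ) : ℝ) := by
    push_cast
    refine Finset.sum_congr rfl (fun j _ => ?_)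
    rw [Real.rpow_zero, mul_one, Real.rpow_natCast]
  rw [h1] at hlt
  exact_mod_cast hlt

/-- Single forms from `CiS`. -/
theorem zeros_of_ciS {K : Type u} [Field K] {i : ℕ} (hK : CiS K i) (n d : ℕ)
    (f : MvPolynomial (Fin n) K) (hd : 0 < d) (hf : f.IsHomogeneous d) (hlt : d ^ i < n) :
    ∃ x : Fin n → K, x ≠ 0 ∧ eval x f = 0 := by
  by_contra hcon
  push Not at hcon
  have h1 : Sys K n 1 d := ⟨fun _ => f, fun _ => hf, fun x hx => by
    by_contra hx0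
    exact hcon x hx0 (hx 0)⟩
  have := hK n d hd h1
  omega

end Pool.Agent.Helper40.CS
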