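import Pool.Agent.Helper40.CS.GridMin

/-!
# CS-1b Grid: the grid lemma

Proof.  Choose `M ≥ 1` with `(3 i / 2) ∑ ℓ ≤ (ε/2) M`, `W l = M γ l + 1`, `A = 4 i ∑ W ℓ + 1`, then `R ≥ 1` with `4 A ∑ W^2 ≤ (ε/4) R M`, then `N` large, and take
`a` from `grid_min`, `g' l = -(2 A/N) (a l - N W l)` (so `|g' l| ≤ A`), `g l = max (g' l) 0`.
* `a l ≥ N W l - N/2 ≥ N/2 ≥ B`.
* `b = a - e_l` in `grid_min` and monotonicity: `g' l ≥ -A/N`, so `0 ≤ g l - g' l ≤ A/N`.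
* `|b - a| ≤ B`: error `≤ (A/N) k (B + B^2) ≤ ε`.
* radial bound: `b l = a l + a l / R` (division in `ℕ`); `R * b l ≤ (R+1) * a l`, so `R L b ≤ (R+1) L a` (hhom, hmono), `L b ≤ L a + L a / R`; with `grid_min`:
  `∑ g' l * (a l / R : ℕ) ≤ L a / R + (A/N) ∑ (a l / R : ℕ)^2`.  Use `a l ≤ 2 N W l`, `(a l / R : ℕ) ≥ a l/R - 1 ≥ N M γ l / R - 1`, `L a ≤ i N ∑ (W l + 1/2) ℓ l`, `g ≤ g' + A/N`: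
  `∑ g l γ l ≤ R k A/(N M) + i ∑ γ ℓ + (3 i/2) ∑ ℓ / M + 4 A ∑ W^2/(R M) + 2 A ∑ W/(N M)`.
-/

set_option autoImplicit false

namespace Pool.Agent.Helper40.CS

theorem grid {ι : Type} [Fintype ι] {L : (ι → ℕ) → ℝ} {ℓ : ι → ℝ} {i : ℝ} (hi : 0 ≤ i) (hℓ : ∀ l, 0 ≤ ℓ l)
    (hmono : ∀ a b, a ≤ b → L a ≤ L b) (hhom : ∀ (R : ℕ) (a : ι → ℕ), L (fun l => R * a l) = R * L a)
    (hub : ∀ a, L a ≤ i * ∑ l, (a l : ℝ) * ℓ l) (γ : ι → ℕ) {ε : ℝ} (hε : 0 < ε) (B : ℕ) :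
    ∃ (a : ι → ℕ) (g : ι → ℝ), (∀ l, B ≤ a l) ∧ (∀ l, 0 ≤ g l) ∧
      (∀ b : ι → ℕ, (∀ l, |(b l : ℝ) - a l| ≤ B) → L a + ∑ l, g l * ((b l : ℝ) - a l) - ε ≤ L b) ∧
      ∑ l, g l * γ l ≤ i * ∑ l, (γ l : ℝ) * ℓ l + ε := by
  sorry

end Pool.Agent.Helper40.CS
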