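import Mathlib

/-!
# CS-1a GridMin: a point of `ℕ^ι` with a linear lower support of `L`

Proof.  Put `Φ b = L b + (A/N) ∑ (b l - N W l)^2`.  Minimise `Φ` over the finite box `b l ≤ 2 N W l` (`Fintype.piFinset`, `Finset.exists_min_image`);
outside the box `Φ b ≥ (A/N) (N W l)^2 ≥ A N > Φ (N W)`, so `a` is a global minimiser (`Φ (N W) = L (N • W) = N L W ≤ N i ∑ W ℓ ≤ N A / 4`).
`Φ a ≤ Φ (N W)` gives `∑ (a l - N W l)^2 ≤ N^2/4` (note `0 ≤ L`, since `L 0 = 0` by `hhom 0` and `hmono`).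
`Φ a ≤ Φ b` is the third claim, because `(a-c)^2 - (b-c)^2 = -2 (a-c) (b-a) - (b-a)^2`.
-/

set_option autoImplicit false

namespace Pool.Agent.Helper40.CS

theorem grid_min {ι : Type} [Fintype ι] {L : (ι → ℕ) → ℝ} {ℓ : ι → ℝ} {i A : ℝ}
    (hmono : ∀ a b, a ≤ b → L a ≤ L b) (hhom : ∀ (R : ℕ) (a : ι → ℕ), L (fun l => R * a l) = R * L a)
    (hub : ∀ a, L a ≤ i * ∑ l, (a l : ℝ) * ℓ l) {W : ι → ℕ} (hW : ∀ l, 1 ≤ W l) (hA : 0 < A)
    (hWA : 4 * (i * ∑ l, (W l : ℝ) * ℓ l) ≤ A) {N : ℕ} (hN : 1 ≤ N) :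
    ∃ a : ι → ℕ, (∀ l, |(a l : ℝ) - N * W l| ≤ N / 2) ∧
      ∀ b : ι → ℕ, L a + ∑ l, (-(2 * A / N) * ((a l : ℝ) - N * W l)) * ((b l : ℝ) - a l)
        - (A / N) * ∑ l, ((b l : ℝ) - a l) ^ 2 ≤ L b := by
  classical
  have hNpos : (0 : ℝ) < N := by exact_mod_cast hN
  have hN1 : (1 : ℝ) ≤ N := by exact_mod_cast hN
  have hAN : 0 < A / N := div_pos hA hNpos
  -- `L 0 = 0`, `0 ≤ L`
  have hL0 : L (fun _ => 0) = 0 := by
    have h := hhom 0 (fun _ => 0)
    simpa using h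
  have hLnn : ∀ b, 0 ≤ L b := by
    intro b
    have h := hmono (fun _ => 0) b (fun l => Nat.zero_le _)
    rw [hL0] at h
    exact h
  -- the penalised function
  let Φ : (ι → ℕ) → ℝ := fun b => L b + (A / N) * ∑ l, ((b l : ℝ) - N * W l) ^ 2
  let c : ι → ℕ := fun l => N * W l
  have hΦc : Φ c ≤ N * A / 4 := by
    have h1 : Φ c = N * L W := by
      change L c + (A / N) * ∑ l, ((c l : ℝ) - N * W l) ^ 2 = N * L W
      have h2 : ∑ l, ((c l : ℝ) - N * W l) ^ 2 = 0 := by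
        apply Finset.sum_eq_zero
        intro l _
        have : ((c l : ℕ) : ℝ) = N * W l := by
          change ((N * W l : ℕ) : ℝ) = N * W l
          push_cast
          ring
        rw [this]
        ring
      rw [h2, mul_zero, add_zero]
      exact hhom N W
    rw [h1]
    have h3 := hub W
    nlinarith
  -- minimise over the box
  let box : Finset (ι → ℕ) := Fintype.piFinset (fun l => Finset.range (2 * (N * W l) + 1))
  have hcbox : c ∈ box := by
    rw [Fintype.mem_piFinset]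
    intro l
    rw [Finset.mem_range]
    change N * W l < 2 * (N * W l) + 1
    omega
  obtain ⟨a, _, hamin⟩ := Finset.exists_min_image box Φ ⟨c, hcbox⟩
  have hglob : ∀ b, Φ a ≤ Φ b := by
    intro b
    by_cases hb : b ∈ box
    · exact hamin b hb
    · have hac : Φ a ≤ Φ c := hamin c hcbox
      rw [Fintype.mem_piFinset] at hb
      push Not at hb
      obtain ⟨l, hl⟩ := hb
      rw [Finset.mem_range, not_lt] at hl
      have hl' : (2 * (N * (W l : ℝ)) + 1) ≤ (b l : ℝ) := by exact_mod_cast hl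
      have hWl : (1 : ℝ) ≤ W l := by exact_mod_cast hW l
      have hNW : (N : ℝ) ≤ N * W l := by nlinarith
      have h1 : (N : ℝ) ≤ (b l : ℝ) - N * W l := by linarith
      have h2 : (N : ℝ) ^ 2 ≤ ((b l : ℝ) - N * W l) ^ 2 := by
        have h0 : (0 : ℝ) ≤ N := hNpos.le
        nlinarith
      have h3 : ((b l : ℝ) - N * W l) ^ 2 ≤ ∑ l, ((b l : ℝ) - N * W l) ^ 2 :=
        Finset.single_le_sum (f := fun l => ((b l : ℝ) - N * W l) ^ 2) (fun _ _ => sq_nonneg _)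
          (Finset.mem_univ l)
      have h4 : (A / N) * (N : ℝ) ^ 2 ≤ (A / N) * ∑ l, ((b l : ℝ) - N * W l) ^ 2 :=
        mul_le_mul_of_nonneg_left (h2.trans h3) hAN.le
      have h5 : (A / N) * (N : ℝ) ^ 2 = A * N := by
        field_simp
      have h6 : A * N ≤ Φ b := by
        change A * N ≤ L b + (A / N) * ∑ l, ((b l : ℝ) - N * W l) ^ 2
        have := hLnn b
        linarith
      have h7 : 0 < A * N := mul_pos hA hNpos
      linarith
  refine ⟨a, ?_, ?_⟩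
  · intro l
    have h1 : Φ a ≤ N * A / 4 := (hglob c).trans hΦc
    have h2 : (A / N) * ∑ l, ((a l : ℝ) - N * W l) ^ 2 ≤ N * A / 4 := by
      have h3 : L a + (A / N) * ∑ l, ((a l : ℝ) - N * W l) ^ 2 ≤ N * A / 4 := h1
      have := hLnn a
      linarith
    have h3 : ∑ l, ((a l : ℝ) - N * W l) ^ 2 ≤ (N : ℝ) ^ 2 / 4 := by
      have h4 : (A / N) * ((N : ℝ) ^ 2 / 4) = N * A / 4 := by
        field_simp
      rw [← h4] at h2
      exact le_of_mul_le_mul_left h2 hAN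
    have h4 : ((a l : ℝ) - N * W l) ^ 2 ≤ ∑ l, ((a l : ℝ) - N * W l) ^ 2 :=
      Finset.single_le_sum (f := fun l => ((a l : ℝ) - N * W l) ^ 2) (fun _ _ => sq_nonneg _)
        (Finset.mem_univ l)
    apply abs_le_of_sq_le_sq _ (by positivity)
    calc ((a l : ℝ) - N * W l) ^ 2 ≤ (N : ℝ) ^ 2 / 4 := h4.trans h3
      _ = ((N : ℝ) / 2) ^ 2 := by ring
  · intro b
    have h1 : L a + (A / N) * ∑ l, ((a l : ℝ) - N * W l) ^ 2
        ≤ L b + (A / N) * ∑ l, ((b l : ℝ) - N * W l) ^ 2 := hglob b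
    have h2 : ∑ l, (-(2 * A / N) * ((a l : ℝ) - N * W l)) * ((b l : ℝ) - a l)
        - (A / N) * ∑ l, ((b l : ℝ) - a l) ^ 2
        = (A / N) * ∑ l, ((a l : ℝ) - N * W l) ^ 2 - (A / N) * ∑ l, ((b l : ℝ) - N * W l) ^ 2 := by
      rw [Finset.mul_sum, Finset.mul_sum, Finset.mul_sum, ← Finset.sum_sub_distrib,
        ← Finset.sum_sub_distrib]
      apply Finset.sum_congr rfl
      intro l _
      ring
    linarith

end Pool.Agent.Helper40.CS
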