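import Pool.Agent.Helper40.CS.Defs
import Pool.Agent.Helper59.CI.Weil

/-!
# CS-9 WeilMixed: potentials pass to finite extensions

Proof.  A system `f` over `L` in `n` variables of degrees `d j`, `m = [L : K]`, basis `b`: the forms `lmap (b.coord k) (aeval g (f j))` (`k : Fin m`, `j : Fin r`) over `K`
in the variables `Fin m × Fin n` (exactly as in `Helper59.CI.weil`) have degrees `d j` and only the trivial common zero.  Reindex (`finProdFinEquiv`) and apply
`Pot K p s t`: `m n ≤ ∑_(k, j) ... = m ∑_j ...`; divide by `m ≥ 1`.
-/

set_option autoImplicit false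

open MvPolynomial

namespace Pool.Agent.Helper40.CS

universe u

/-- Weil restriction of a system of mixed degrees. -/
private theorem weil_mixed {K L : Type u} [Field K] [Field L] [Algebra K L]
    [FiniteDimensional K L] {n r : ℕ} {d : Fin r → ℕ} (f : Fin r → MvPolynomial (Fin n) L)
    (hf : ∀ j, (f j).IsHomogeneous (d j))
    (hf0 : ∀ x : Fin n → L, (∀ j, eval x (f j) = 0) → x = 0) :
    ∃ F : Fin (Module.finrank K L) × Fin r →
        MvPolynomial (Fin (Module.finrank K L) × Fin n) K,
      (∀ q, (F q).IsHomogeneous (d q.2)) ∧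
      ∀ x : Fin (Module.finrank K L) × Fin n → K, (∀ q, eval x (F q) = 0) → x = 0 := by
  classical
  let b := Module.finBasis K L
  let g : Fin n → MvPolynomial (Fin (Module.finrank K L) × Fin n) L :=
    fun s => ∑ j, C (b j) * X (j, s)
  have hg : ∀ s, (g s).IsHomogeneous 1 := fun s => by
    refine IsHomogeneous.sum _ _ _ (fun j _ => ?_)
    have h1 := (isHomogeneous_C (Fin (Module.finrank K L) × Fin n) (b j)).mul
      (isHomogeneous_X L (j, s))
    rwa [zero_add] at h1
  refine ⟨fun q => Helper59.CI.lmap (b.coord q.1) (aeval g (f q.2)), fun q => ?_,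
    fun x hx => ?_⟩
  · have h1 := (hf q.2).aeval g hg
    rw [one_mul] at h1
    exact Helper59.CI.lmap_hom _ h1
  · have hy : (fun s => ∑ j, x (j, s) • b j) = (0 : Fin n → L) := by
      apply hf0
      intro i
      apply b.ext_elem
      intro k
      have h1 := hx (k, i)
      change eval x (Helper59.CI.lmap (b.coord k) (aeval g (f i))) = 0 at h1
      rw [Helper59.CI.eval_lmap, Helper37.Ci.eval_aeval_poly] at h1
      have h2 : (fun s => eval (fun t => algebraMap K L (x t)) (g s)) =
          fun s => ∑ j, x (j, s) • b j := by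
        funext s
        simp only [g, map_sum, map_mul, eval_C, eval_X]
        refine Finset.sum_congr rfl (fun j _ => ?_)
        rw [Algebra.smul_def, mul_comm]
      rw [h2] at h1
      rw [map_zero]
      exact h1
    funext q
    exact Fintype.linearIndependent_iff.1 b.linearIndependent (fun j => x (j, q.2))
      (congrFun hy q.2) q.1

theorem Pot.finite_ext {K L : Type u} [Field K] [Field L] [Algebra K L] [FiniteDimensional K L]
    {p : ℕ} {s t : ℝ} (h : Pot K p s t) : Pot L p s t := by
  intro n r d f hd hf hf0
  obtain ⟨F, hF, hF0⟩ := weil_mixed (K := K) f hf hf0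
  have hm : 0 < Module.finrank K L := Module.finrank_pos
  have key := h (Module.finrank K L * n) (Module.finrank K L * r)
    (fun q => d (finProdFinEquiv.symm q).2)
    (fun q => rename finProdFinEquiv (F (finProdFinEquiv.symm q)))
    (fun q => hd _) (fun q => (hF _).rename_isHomogeneous) (by
      intro x hx
      have h1 : (fun z => x (finProdFinEquiv z)) = 0 := by
        apply hF0
        intro q
        have h2 := hx (finProdFinEquiv q)
        rw [Equiv.symm_apply_apply, eval_rename] at h2
        exact h2
      funext z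
      have h3 : x (finProdFinEquiv (finProdFinEquiv.symm z)) = 0 :=
        congrFun h1 (finProdFinEquiv.symm z)
      rwa [Equiv.apply_symm_apply] at h3)
  have hsum : (∑ q : Fin (Module.finrank K L * r),
      ((d (finProdFinEquiv.symm q).2 : ℕ) : ℝ) ^ s *
        ((p : ℝ) ^ (padicValNat p (d (finProdFinEquiv.symm q).2))) ^ t) =
      (Module.finrank K L : ℝ) *
        ∑ j, (d j : ℝ) ^ s * ((p : ℝ) ^ (padicValNat p (d j))) ^ t := by
    rw [Equiv.sum_comp finProdFinEquiv.symm
      (fun q : Fin (Module.finrank K L) × Fin r => ((d q.2 : ℕ) : ℝ) ^ s *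
        ((p : ℝ) ^ (padicValNat p (d q.2))) ^ t), Fintype.sum_prod_type]
    simp
  rw [hsum] at key
  push_cast at key
  have hm' : (0 : ℝ) < Module.finrank K L := by exact_mod_cast hm
  exact le_of_mul_le_mul_left key hm'

end Pool.Agent.Helper40.CS
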