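import Pool.Agent.Helper70.CI.Pot
import Pool.Agent.Helper40.CS.Closed
import Pool.Agent.Helper40.CS.Choose
import Pool.Agent.Helper40.CS.WeilMixed

/-!
# CS-8 Main: assembly

Proof of `potentials`.  Algebraically closed `K`: `P = {2}`, `x = 1`, `s = i`, `Pot K 2 i 0` (from `le_of_isAlgClosed`).
Otherwise let `P0 = {p prime | ∃ s, 0 ≤ s ∧ s ≤ i ∧ PotInf K p s}`.
* `P0` infinite: `Pot K 2 i 0`: for a system choose `p ∈ P0` larger than all `d j`: `n ≤ ∑ d j ^ s ≤ ∑ d j ^ i`; `P = {2}`, `x = 1`, `s = i`.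
* `P0` finite, nonempty by `exists_pot` for `c = 2`.  `S p = {x ∈ [0,1] | Good K i p x}`, `x p = sSup (S p)` (`= 0` if empty).  If `∑_(P0) x p < 1` take `c` from `exists_int`,
  `exists_pot` gives `q ∈ P0`, so `q ∣ c`, and `v = padicValNat q c * log q / log c ∈ (x q, 1]` (`v ≤ 1`: `q ^ v_q(c) ∣ c`) is in `S q`: contradiction.
  So `∑ x p ≥ 1`; let `P = P0.filter (0 < x p)` and `x' p = x p / ∑ x`; `good_sup` gives `s p, t p` with `s p + t p * x p ≤ i`, so `t p ≤ (i - s p)/x p ≤ (i - s p)/x' p` and `Pot.mono`.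
-/

set_option autoImplicit false

open MvPolynomial Pool.Agent.Helper37.Ci

namespace Pool.Agent.Helper40.CS

universe u

theorem pot_of_algClosed {K : Type u} [Field K] [IsAlgClosed K] (i : ℕ) : Pot K 2 i 0 := by
  intro n r d f hd hf hf0
  have h1 : n ≤ r := le_of_isAlgClosed hd f hf hf0
  calc (n : ℝ) ≤ r := by exact_mod_cast h1
    _ = ∑ _j : Fin r, (1 : ℝ) := by simp
    _ ≤ _ := by
      refine Finset.sum_le_sum (fun j _ => ?_)
      rw [Real.rpow_zero, mul_one]
      exact Real.one_le_rpow (by exact_mod_cast hd j) (by positivity)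

/-- Infinitely many primes with a potential: strongly `C_i`. -/
theorem pot_of_infinite {K : Type u} [Field K] {i : ℕ}
    (hinf : Set.Infinite {p : ℕ | p.Prime ∧ ∃ s : ℝ, 0 ≤ s ∧ s ≤ i ∧ PotInf K p s}) :
    Pot K 2 i 0 := by
  intro n r d f hd hf hf0
  obtain ⟨p, ⟨hp, s, hs0, hsi, hpot⟩, hlt⟩ := hinf.exists_gt (∑ j, d j)
  have h1 := hpot n r d f hd (fun j hj => by
    have h2 := Nat.le_of_dvd (hd j) hj
    have h3 : d j ≤ ∑ j, d j := Finset.single_le_sum (fun _ _ => Nat.zero_le _) (Finset.mem_univ j)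
    omega) hf hf0
  refine h1.trans (Finset.sum_le_sum (fun j _ => ?_))
  rw [Real.rpow_zero, mul_one]
  exact Real.rpow_le_rpow_of_exponent_le (by exact_mod_cast hd j) hsi

private theorem val_le_one {q c : ℕ} (hq : q.Prime) (hc : 2 ≤ c) :
    (padicValNat q c : ℝ) * Real.log q / Real.log c ≤ 1 := by
  have hc0 : (0 : ℝ) < c := by positivity
  have hlog : 0 < Real.log c := Real.log_pos (by exact_mod_cast (by omega : 1 < c))
  rw [div_le_one hlog]
  have h1 : q ^ padicValNat q c ≤ c := Nat.le_of_dvd (by omega) pow_padicValNat_dvd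
  rw [← Real.log_pow]
  refine Real.log_le_log ?_ (by exact_mod_cast h1)
  have : (0 : ℝ) < q := by exact_mod_cast hq.pos
  positivity

theorem potentials {K : Type u} [Field K] {i : ℕ} (hK : CiS K i) :
    ∃ (P : Finset ℕ) (x s : ℕ → ℝ), (∀ p ∈ P, p.Prime ∧ 0 < x p ∧ 0 ≤ s p ∧ s p ≤ i) ∧ ∑ p ∈ P, x p = 1 ∧
      ∀ p ∈ P, Pot K p (s p) ((i - s p) / x p) := by
  classical
  -- the strongly `C_i` case
  have strong : Pot K 2 i 0 → ∃ (P : Finset ℕ) (x s : ℕ → ℝ),
      (∀ p ∈ P, p.Prime ∧ 0 < x p ∧ 0 ≤ s p ∧ s p ≤ i) ∧ ∑ p ∈ P, x p = 1 ∧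
      ∀ p ∈ P, Pot K p (s p) ((i - s p) / x p) := by
    intro h
    refine ⟨{2}, fun _ => 1, fun _ => i, ?_, by simp, ?_⟩
    · intro p hp
      rw [Finset.mem_singleton.1 hp]
      exact ⟨Nat.prime_two, one_pos, by positivity, le_rfl⟩
    · intro p hp
      rw [Finset.mem_singleton.1 hp]
      simpa using h
  by_cases hac : IsAlgClosed K
  · exact strong (pot_of_algClosed i)
  set P0 : Set ℕ := {p : ℕ | p.Prime ∧ ∃ s : ℝ, 0 ≤ s ∧ s ≤ i ∧ PotInf K p s} with hP0
  by_cases hinf : P0.Infinite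
  · exact strong (pot_of_infinite hinf)
  have hfin : P0.Finite := Set.not_infinite.1 hinf
  set Q : Finset ℕ := hfin.toFinset with hQ
  have hQmem : ∀ p, p ∈ Q ↔ p ∈ P0 := fun p => by rw [hQ, Set.Finite.mem_toFinset]
  have hQprime : ∀ p ∈ Q, p.Prime := fun p hp => ((hQmem p).1 hp).1
  have hQne : Q.Nonempty := by
    obtain ⟨p, s, hp, hs0, hsi, hpot, -⟩ := Helper70.CI.exists_pot hac hK (c := 2) le_rfl
    exact ⟨p, (hQmem p).2 ⟨hp, s, hs0, hsi, hpot⟩⟩
  set S : ℕ → Set ℝ := fun p => {x | 0 ≤ x ∧ x ≤ 1 ∧ Good K i p x} with hS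
  set x : ℕ → ℝ := fun p => sSup (S p) with hx
  have hSbdd : ∀ p, BddAbove (S p) := fun p => ⟨1, fun y hy => hy.2.1⟩
  have hx0 : ∀ p, 0 ≤ x p := fun p => Real.sSup_nonneg (fun y hy => hy.1)
  have hsum : 1 ≤ ∑ p ∈ Q, x p := by
    by_contra hlt
    push Not at hlt
    obtain ⟨c, hc, hcP⟩ := exists_int Q hQprime hQne x (fun p _ => hx0 p) hlt
    obtain ⟨q, s, hq, hs0, hsi, hpotinf, hpot⟩ := Helper70.CI.exists_pot hac hK hc
    have hqQ : q ∈ Q := (hQmem q).2 ⟨hq, s, hs0, hsi, hpotinf⟩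
    obtain ⟨hqc, hlt'⟩ := hcP q hqQ
    obtain ⟨t, ht0, hpt, hineq⟩ := hpot hqc
    have hlog : 0 < Real.log c := Real.log_pos (by exact_mod_cast (by omega : 1 < c))
    have hlogq : 0 ≤ Real.log q := Real.log_nonneg (by exact_mod_cast hq.one_lt.le)
    have hmem : (padicValNat q c : ℝ) * Real.log q / Real.log c ∈ S q := by
      refine ⟨by positivity, val_le_one hq hc, s, t, hs0, ht0, hpt, ?_⟩
      have h1 : s + t * ((padicValNat q c : ℝ) * Real.log q / Real.log c)
          = (s * Real.log c + t * padicValNat q c * Real.log q) / Real.log c := by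
        field_simp
      rw [h1, div_le_iff₀ hlog]
      exact hineq
    have h2 : (padicValNat q c : ℝ) * Real.log q / Real.log c ≤ x q := le_csSup (hSbdd q) hmem
    rw [div_le_iff₀ hlog] at h2
    linarith
  set T : ℝ := ∑ p ∈ Q, x p with hT
  have hT0 : 0 < T := by linarith
  have hgood : ∀ p, p ∈ Q → 0 < x p → Good K i p (x p) := by
    intro p hp hxp
    refine good_sup (hQprime p hp).one_lt.le (fun y hy => hy.2.2) ?_ (hSbdd p) hxp
    by_contra hne
    rw [Set.not_nonempty_iff_eq_empty] at hne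
    have : x p = 0 := by simp only [hx]; rw [hne, Real.sSup_empty]
    linarith
  have hgood' : ∀ p, ∃ s : ℝ, p ∈ Q → 0 < x p →
      0 ≤ s ∧ ∃ t : ℝ, 0 ≤ t ∧ Pot K p s t ∧ s + t * x p ≤ i := by
    intro p
    by_cases h : p ∈ Q ∧ 0 < x p
    · obtain ⟨s, t, hs, ht, hpt, hle⟩ := hgood p h.1 h.2
      exact ⟨s, fun _ _ => ⟨hs, t, ht, hpt, hle⟩⟩
    · exact ⟨0, fun h1 h2 => absurd ⟨h1, h2⟩ h⟩
  choose s hs using hgood'
  refine ⟨Q.filter (fun p => 0 < x p), fun p => x p / T, s, ?_, ?_, ?_⟩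
  · intro p hp
    rw [Finset.mem_filter] at hp
    obtain ⟨hs0, t, ht0, -, hle⟩ := hs p hp.1 hp.2
    have : 0 ≤ t * x p := mul_nonneg ht0 hp.2.le
    exact ⟨hQprime p hp.1, div_pos hp.2 hT0, hs0, by linarith⟩
  · rw [← Finset.sum_div]
    have h1 : ∑ p ∈ Q.filter (fun p => 0 < x p), x p = T := by
      rw [hT, Finset.sum_filter]
      refine Finset.sum_congr rfl (fun p _ => ?_)
      split_ifs with h
      · rfl
      · exact le_antisymm (hx0 p) (not_lt.1 h)
    rw [h1, div_self hT0.ne']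
  · intro p hp
    rw [Finset.mem_filter] at hp
    obtain ⟨hs0, t, ht0, hpt, hle⟩ := hs p hp.1 hp.2
    refine hpt.mono (hQprime p hp.1).one_lt.le le_rfl ?_
    have h1 : (i - s p) / (x p / T) = (i - s p) * T / x p := by
      field_simp
    rw [h1, le_div_iff₀ hp.2]
    have h2 : 0 ≤ i - s p := by
      have : 0 ≤ t * x p := mul_nonneg ht0 hp.2.le
      linarith
    nlinarith

/-- One form: some potential is good for the degree `d`. -/
theorem ciS_of_potentials {K : Type u} [Field K] {i : ℕ} {P : Finset ℕ} {x s : ℕ → ℝ}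
    (h : ∀ p ∈ P, p.Prime ∧ 0 < x p ∧ 0 ≤ s p ∧ s p ≤ i) (hsum : ∑ p ∈ P, x p = 1)
    (hpot : ∀ p ∈ P, Pot K p (s p) ((i - s p) / x p)) : CiS K i := by
  intro b d hd hS
  obtain ⟨f, hf, hf0⟩ := hS
  have hd1 : (1 : ℝ) ≤ d := by exact_mod_cast hd
  have hd0 : (0 : ℝ) < d := by linarith
  have hlogd : 0 ≤ Real.log d := Real.log_nonneg hd1
  -- a good prime
  obtain ⟨p, hpP, hple⟩ : ∃ p ∈ P, (padicValNat p d : ℝ) * Real.log p ≤ x p * Real.log d := by
    by_contra hcon
    push Not at hcon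
    have hne : P.Nonempty := by
      by_contra hne
      rw [Finset.not_nonempty_iff_eq_empty] at hne
      rw [hne] at hsum
      simp at hsum
    have h1 : ∑ p ∈ P, x p * Real.log d < ∑ p ∈ P, (padicValNat p d : ℝ) * Real.log p :=
      Finset.sum_lt_sum_of_nonempty hne hcon
    rw [← Finset.sum_mul, hsum, one_mul] at h1
    have h2 : ∑ p ∈ P, (padicValNat p d : ℝ) * Real.log p ≤ Real.log d := by
      rw [Real.log_nat_eq_sum_factorization d, Finsupp.sum]
      calc ∑ p ∈ P, (padicValNat p d : ℝ) * Real.log p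
          = ∑ p ∈ P, (d.factorization p : ℝ) * Real.log p :=
            Finset.sum_congr rfl (fun p hp => by rw [Nat.factorization_def d (h p hp).1])
        _ ≤ ∑ p ∈ P ∪ d.factorization.support, (d.factorization p : ℝ) * Real.log p :=
            Finset.sum_le_sum_of_subset_of_nonneg Finset.subset_union_left (fun p hp _ => by
              have : 0 ≤ Real.log p := Real.log_natCast_nonneg p
              positivity)
        _ = ∑ p ∈ d.factorization.support, (d.factorization p : ℝ) * Real.log p := by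
            symm
            refine Finset.sum_subset Finset.subset_union_right (fun p _ hp => ?_)
            rw [Finsupp.notMem_support_iff] at hp
            rw [hp]
            simp
    linarith
  obtain ⟨hp, hx0, hs0, hsi⟩ := h p hpP
  have hp0 : (0 : ℝ) < p := by exact_mod_cast hp.pos
  have h1 := hpot p hpP b 1 (fun _ => d) f (fun _ => hd) hf hf0
  rw [Fin.sum_univ_one] at h1
  have h2 : ((p : ℝ) ^ (padicValNat p d)) ^ ((i - s p) / x p) ≤ (d : ℝ) ^ ((i : ℝ) - s p) := by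
    rw [Real.rpow_def_of_pos (by positivity), Real.rpow_def_of_pos hd0, Real.exp_le_exp,
      Real.log_pow]
    calc (padicValNat p d : ℝ) * Real.log p * ((i - s p) / x p)
        ≤ x p * Real.log d * ((i - s p) / x p) :=
          mul_le_mul_of_nonneg_right hple (div_nonneg (by linarith) hx0.le)
      _ = Real.log d * (i - s p) := by field_simp
  have h3 : (b : ℝ) ≤ (d : ℝ) ^ i := by
    calc (b : ℝ) ≤ (d : ℝ) ^ (s p) * ((p : ℝ) ^ (padicValNat p d)) ^ ((i - s p) / x p) := h1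
      _ ≤ (d : ℝ) ^ (s p) * (d : ℝ) ^ ((i : ℝ) - s p) :=
        mul_le_mul_of_nonneg_left h2 (by positivity)
      _ = (d : ℝ) ^ (i : ℝ) := by rw [← Real.rpow_add hd0]; congr 1; ring
      _ = (d : ℝ) ^ i := Real.rpow_natCast _ _
  exact_mod_cast h3

end Pool.Agent.Helper40.CS
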