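import Pool.Agent.Helper40.CS.Grid
import Pool.Agent.Helper37.CiGeneral

/-!
# CS-2 Stage: approximate multiplicative states

Proof.  `ι = {p // p ∈ Nat.primesBelow ν}`, `L a = - log (κ (∏ l, l ^ a l))`, `ℓ l = log l`.  `hmono`: `∏ l^(a l) ∣ ∏ l^(b l)`, `κ (x y) ≤ κ x κ y ≤ κ x`; `hhom`: `h.powm`;
`hub`: `h.lb`.  Take `a, g` from `grid` with `γ l = padicValNat l c` and `B = ν`; `X = ∏ l, l ^ a l`, `G m = exp (- ∑ l, g l * padicValNat l m)`.
For `1 ≤ s, t < ν` all prime factors are `< ν` and all `padicValNat l t ≤ ν`, so `t ∣ X` (compare valuations), and `X / t * s = ∏ l, l ^ b l` with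
`b l = a l - padicValNat l t + padicValNat l s`, `|b l - a l| ≤ ν` (`padicValNat l t < ν`: `l ^ v ≤ t < ν`, `v < 2 ^ v`).
`L b ≥ L a + ∑ g l (padicValNat l s - padicValNat l t) - ε` is the claim after `exp`.
-/

set_option autoImplicit false

open Pool.Agent.Helper37.Ci

namespace Pool.Agent.Helper40.CS

private abbrev Pb (ν : ℕ) : Type := {p // p ∈ Nat.primesBelow ν}

private def PP (ν : ℕ) (a : Pb ν → ℕ) : ℕ := ∏ l : Pb ν, (l : ℕ) ^ a l

private theorem pb_prime {ν : ℕ} (l : Pb ν) : (l : ℕ).Prime := Nat.prime_of_mem_primesBelow l.2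

private theorem PP_pos {ν : ℕ} (a : Pb ν → ℕ) : 1 ≤ PP ν a :=
  Nat.succ_le_of_lt (Finset.prod_pos fun l _ => pow_pos (pb_prime l).pos _)

private theorem PP_add {ν : ℕ} (a b : Pb ν → ℕ) :
    PP ν (fun l => a l + b l) = PP ν a * PP ν b := by
  unfold PP
  rw [← Finset.prod_mul_distrib]
  exact Finset.prod_congr rfl fun l _ => pow_add _ _ _

private theorem PP_mul {ν : ℕ} (R : ℕ) (a : Pb ν → ℕ) :
    PP ν (fun l => R * a l) = PP ν a ^ R := by
  unfold PP
  rw [← Finset.prod_pow]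
  exact Finset.prod_congr rfl fun l _ => by
    show ((l : ℕ)) ^ (R * a l) = ((l : ℕ) ^ a l) ^ R
    rw [mul_comm, pow_mul]

private theorem PP_val {ν t : ℕ} (ht : 1 ≤ t) (htν : t < ν) :
    PP ν (fun l => padicValNat (l : ℕ) t) = t := by
  have h := Nat.prod_pow_prime_padicValNat t (by omega) ν htν
  unfold PP
  rw [Finset.prod_coe_sort (Nat.primesBelow ν) (fun p => p ^ padicValNat p t)]
  exact h

private theorem log_PP {ν : ℕ} (a : Pb ν → ℕ) :
    Real.log (PP ν a : ℝ) = ∑ l : Pb ν, (a l : ℝ) * Real.log (l : ℕ) := by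
  unfold PP
  push_cast
  rw [Real.log_prod]
  · exact Finset.sum_congr rfl fun l _ => by rw [Real.log_pow]
  · intro l _
    have : (0 : ℝ) < ((l : ℕ) : ℝ) := by exact_mod_cast (pb_prime l).pos
    positivity

private theorem val_lt {ν t : ℕ} (htν : t < ν) (l : ℕ) :
    padicValNat l t < ν := by
  have h1 : padicValNat l t ≤ Nat.log l t := padicValNat_le_nat_log t
  have h2 : Nat.log l t ≤ t := Nat.log_le_self l t
  omega

theorem stage {i : ℕ} {κ : ℕ → ℝ} (h : RegCost.Full i κ) (c ν : ℕ) {ε : ℝ} (hε : 0 < ε) :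
    ∃ (X : ℕ) (G : ℕ → ℝ), 1 ≤ X ∧ (∀ m, 1 ≤ m → 0 < G m ∧ G m ≤ 1) ∧ G 1 = 1 ∧
      (∀ a b, 1 ≤ a → 1 ≤ b → G (a * b) = G a * G b) ∧
      (∀ s t, 1 ≤ s → 1 ≤ t → s < ν → t < ν → t ∣ X ∧
        κ (X / t * s) * G t ≤ Real.exp ε * κ X * G s) ∧
      (1 ≤ c → c < ν → Real.exp (-ε) ≤ G c * (c : ℝ) ^ i) := by
  classical
  set L : (Pb ν → ℕ) → ℝ := fun a => - Real.log (κ (PP ν a)) with hL
  set ell : Pb ν → ℝ := fun l => Real.log ((l : ℕ) : ℝ) with hell
  have hκpos : ∀ a : Pb ν → ℕ, 0 < κ (PP ν a) := fun a => h.pos (PP_pos a)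
  have hmono : ∀ a b : Pb ν → ℕ, a ≤ b → L a ≤ L b := by
    intro a b hab
    have e : PP ν b = PP ν a * PP ν (fun l => b l - a l) := by
      rw [← PP_add]
      congr 1
      funext l
      have h0 : a l ≤ b l := hab l
      show b l = a l + (b l - a l)
      omega
    have h1 : κ (PP ν b) ≤ κ (PP ν a) := by
      rw [e]
      calc κ (PP ν a * PP ν (fun l => b l - a l))
          ≤ κ (PP ν a) * κ (PP ν (fun l => b l - a l)) := h.mul _ _ (PP_pos _) (PP_pos _)
        _ ≤ κ (PP ν a) * 1 :=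
            mul_le_mul_of_nonneg_left (h.ub _ (PP_pos _)) (hκpos a).le
        _ = κ (PP ν a) := mul_one _
    simp only [hL]
    exact neg_le_neg (Real.log_le_log (hκpos b) h1)
  have hhom : ∀ (R : ℕ) (a : Pb ν → ℕ), L (fun l => R * a l) = R * L a := by
    intro R a
    simp only [hL]
    rw [PP_mul, h.powm _ _ (PP_pos a), Real.log_pow]
    ring
  have hub : ∀ a : Pb ν → ℕ, L a ≤ (i : ℝ) * ∑ l, (a l : ℝ) * ell l := by
    intro a
    have h1 := h.lb (PP ν a) (PP_pos a)
    have hP : (0 : ℝ) < (PP ν a : ℝ) := by exact_mod_cast PP_pos a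
    have h2 : 0 ≤ Real.log (κ (PP ν a) * (PP ν a : ℝ) ^ i) := Real.log_nonneg h1
    rw [Real.log_mul (hκpos a).ne' (by positivity), Real.log_pow, log_PP] at h2
    simp only [hL, hell]
    linarith
  have hell0 : ∀ l, 0 ≤ ell l := by
    intro l
    simp only [hell]
    exact Real.log_nonneg (by exact_mod_cast (pb_prime l).one_lt.le)
  obtain ⟨a, g, ha, hg, hgrid, hγ⟩ := grid (L := L) (ℓ := ell) (i := (i : ℝ)) (Nat.cast_nonneg i)
    hell0 hmono hhom hub (fun l => padicValNat (l : ℕ) c) hε ν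
  refine ⟨PP ν a, fun m => Real.exp (- ∑ l : Pb ν, g l * (padicValNat (l : ℕ) m : ℝ)), PP_pos a,
    ?_, ?_, ?_, ?_, ?_⟩
  · intro m _
    refine ⟨Real.exp_pos _, ?_⟩
    rw [Real.exp_le_one_iff]
    have : 0 ≤ ∑ l : Pb ν, g l * (padicValNat (l : ℕ) m : ℝ) :=
      Finset.sum_nonneg fun l _ => mul_nonneg (hg l) (Nat.cast_nonneg _)
    linarith
  · simp
  · intro x y hx hy
    show Real.exp _ = Real.exp _ * Real.exp _
    rw [← Real.exp_add]
    congr 1
    have : ∀ l : Pb ν, g l * (padicValNat (l : ℕ) (x * y) : ℝ)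
        = g l * (padicValNat (l : ℕ) x : ℝ) + g l * (padicValNat (l : ℕ) y : ℝ) := by
      intro l
      have := Fact.mk (pb_prime l)
      rw [padicValNat.mul (by omega) (by omega)]
      push_cast
      ring
    rw [Finset.sum_congr rfl fun l _ => this l, Finset.sum_add_distrib]
    ring
  · intro s t hs ht hsν htν
    have hle : ∀ l : Pb ν, padicValNat (l : ℕ) t ≤ a l := fun l =>
      (val_lt htν l).le.trans (ha l)
    have e1 : PP ν a = PP ν (fun l => a l - padicValNat (l : ℕ) t) * t := by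
      conv_rhs => rw [← PP_val ht htν]
      rw [PP_val ht htν]
      conv_rhs => arg 2; rw [← PP_val ht htν]
      rw [← PP_add]
      congr 1
      funext l
      have := hle l
      omega
    have hdvd : t ∣ PP ν a := ⟨_, e1.trans (mul_comm _ _)⟩
    refine ⟨hdvd, ?_⟩
    set b : Pb ν → ℕ := fun l => (a l - padicValNat (l : ℕ) t) + padicValNat (l : ℕ) s with hb
    have e2 : PP ν a / t * s = PP ν b := by
      have : PP ν a / t = PP ν (fun l => a l - padicValNat (l : ℕ) t) := by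
        conv_lhs => rw [e1]
        exact Nat.mul_div_cancel _ (by omega)
      rw [this, hb, PP_add, PP_val hs hsν]
    have hbval : ∀ l, (b l : ℝ) - a l
        = (padicValNat (l : ℕ) s : ℝ) - (padicValNat (l : ℕ) t : ℝ) := by
      intro l
      simp only [hb]
      push_cast [Nat.cast_sub (hle l)]
      ring
    have hB : ∀ l, |(b l : ℝ) - a l| ≤ ν := by
      intro l
      rw [hbval l, abs_le]
      have h1 : (padicValNat (l : ℕ) s : ℝ) < ν := by exact_mod_cast val_lt hsν l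
      have h2 : (padicValNat (l : ℕ) t : ℝ) < ν := by exact_mod_cast val_lt htν l
      have h3 : (0 : ℝ) ≤ (padicValNat (l : ℕ) s : ℝ) := Nat.cast_nonneg _
      have h4 : (0 : ℝ) ≤ (padicValNat (l : ℕ) t : ℝ) := Nat.cast_nonneg _
      constructor <;> linarith
    have hkey := hgrid b hB
    have hsum : ∑ l : Pb ν, g l * ((b l : ℝ) - a l)
        = ∑ l : Pb ν, g l * (padicValNat (l : ℕ) s : ℝ)
          - ∑ l : Pb ν, g l * (padicValNat (l : ℕ) t : ℝ) := by
      rw [← Finset.sum_sub_distrib]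
      exact Finset.sum_congr rfl fun l _ => by rw [hbval l]; ring
    rw [hsum] at hkey
    simp only [hL] at hkey
    rw [e2]
    show κ (PP ν b) * Real.exp _ ≤ Real.exp ε * κ (PP ν a) * Real.exp _
    rw [← Real.exp_log (hκpos b), ← Real.exp_log (hκpos a), ← Real.exp_add, ← Real.exp_add,
      ← Real.exp_add]
    apply Real.exp_le_exp.mpr
    linarith
  · intro hc hcν
    have hcR : (0 : ℝ) < (c : ℝ) := by exact_mod_cast hc
    have hlogc : Real.log (c : ℝ) = ∑ l : Pb ν, (padicValNat (l : ℕ) c : ℝ) * ell l := by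
      conv_lhs => rw [← PP_val hc hcν]
      rw [log_PP]
    show Real.exp (-ε) ≤ Real.exp _ * (c : ℝ) ^ i
    rw [← Real.exp_log (pow_pos hcR i), ← Real.exp_add, Real.log_pow, hlogc]
    apply Real.exp_le_exp.mpr
    linarith

end Pool.Agent.Helper40.CS
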